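import Pool.Agent.T9h55.PF.Cell

/-! The solutions of the Fibonacci recurrence (helper55). -/

set_option autoImplicit false

namespace Pool.Agent.T9h55.PF

open Real (goldenRatio)

lemma fib_lower (U : ℕ → ℕ) (hU : ∀ n, U (n + 2) = U (n + 1) + U n) (h0 : U 0 ≠ 0 ∨ U 1 ≠ 0) (n : ℕ) :
    goldenRatio ^ n ≤ goldenRatio * U (n + 2) := by
  have h2 : 1 ≤ U 2 := by
    have := hU 0
    simp only [zero_add] at this
    omega
  have h3 : 1 ≤ U 3 := by
    have := hU 1
    have e : U 3 = U 2 + U 1 := this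
    omega
  have hφ := Real.goldenRatio_sq
  have hφ0 := Real.goldenRatio_pos
  have hφ1 := Real.one_lt_goldenRatio
  induction n using Nat.strong_induction_on with
  | _ n ih =>
    match n with
    | 0 =>
      have : (1 : ℝ) ≤ U 2 := by exact_mod_cast h2
      simp only [pow_zero, zero_add]
      nlinarith
    | 1 =>
      have : (1 : ℝ) ≤ U 3 := by exact_mod_cast h3
      simp only [pow_one]
      have e : (1 + 2 : ℕ) = 3 := rfl
      rw [e]
      nlinarith
    | n + 2 =>
      have i1 := ih (n + 1) (by omega)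
      have i2 := ih n (by omega)
      have e1 : U (n + 2 + 2) = U (n + 3) + U (n + 2) := hU (n + 2)
      have e2 : U (n + 1 + 2) = U (n + 3) := rfl
      rw [e2] at i1
      rw [e1]
      push_cast
      have e3 : goldenRatio ^ (n + 2) = goldenRatio ^ (n + 1) + goldenRatio ^ n := by
        rw [pow_add, hφ, pow_succ]
        ring
      rw [e3]
      linarith

lemma fib_upper (U : ℕ → ℕ) (hU : ∀ n, U (n + 2) = U (n + 1) + U n) (n : ℕ) :
    (U n : ℝ) ≤ (U 0 + U 1) * goldenRatio ^ n := by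
  have hφ := Real.goldenRatio_sq
  have hφ0 := Real.goldenRatio_pos
  have hφ1 := Real.one_lt_goldenRatio
  induction n using Nat.strong_induction_on with
  | _ n ih =>
    match n with
    | 0 =>
      have : (0 : ℝ) ≤ U 1 := Nat.cast_nonneg _
      simp
    | 1 =>
      have h0 : (0 : ℝ) ≤ U 0 := Nat.cast_nonneg _
      have h1 : (0 : ℝ) ≤ U 1 := Nat.cast_nonneg _
      rw [pow_one]
      nlinarith
    | n + 2 =>
      have i1 := ih (n + 1) (by omega)
      have i2 := ih n (by omega)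
      rw [hU n]
      push_cast
      have e3 : goldenRatio ^ (n + 2) = goldenRatio ^ (n + 1) + goldenRatio ^ n := by
        rw [pow_add, hφ, pow_succ]
        ring
      rw [e3, mul_add]
      linarith

/-- the number of digits -/
noncomputable def kk (θ : ℝ) (p : ℕ) : ℕ := ⌊θ * (p * Real.logb 2 goldenRatio)⌋₊

lemma logb_gt : 0.69 < Real.logb 2 goldenRatio := by
  rw [Real.lt_logb_iff_rpow_lt (by norm_num) Real.goldenRatio_pos]
  have h1 : (2 : ℝ) ^ (0.69 : ℝ) < goldenRatio := by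
    have h2 : (1.6180 : ℝ) < goldenRatio := by
      unfold Real.goldenRatio
      have : (2.236 : ℝ) < Real.sqrt 5 := by
        rw [Real.lt_sqrt (by norm_num)]
        norm_num
      linarith
    refine lt_trans ?_ h2
    rw [← Real.rpow_lt_rpow_iff (z := 100) (by positivity) (by norm_num) (by norm_num), ← Real.rpow_mul (by norm_num)]
    norm_num
  exact h1

lemma logb_lt : Real.logb 2 goldenRatio < 1 := by
  rw [Real.logb_lt_iff_lt_rpow (by norm_num) Real.goldenRatio_pos, Real.rpow_one]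
  exact Real.goldenRatio_lt_two

lemma two_pow_logb (x : ℝ) : (2 : ℝ) ^ (x * Real.logb 2 goldenRatio) = goldenRatio ^ x := by
  rw [mul_comm, Real.rpow_mul (by norm_num), Real.rpow_logb (by norm_num) (by norm_num) Real.goldenRatio_pos]

theorem dat (a : ℕ → ℕ) (K : ℝ) (ha : ∀ᶠ n : ℕ in Filter.atTop, goldenRatio ^ n ≤ K * a n ∧ (a n : ℝ) ≤ K * goldenRatio ^ n)
    (δ θ : ℝ) (hδ : 0 < δ) (hδ1 : δ ≤ 1 / 64) (hθ : 1 < (1 + δ) * θ) (hθ1 : θ < 1) (m : ℕ) :
    ∃ N₀ : ℕ, Dat δ a (fun p => kk θ p + m) (1 / 4) 1 N₀ := by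
  obtain ⟨ρ, hρ⟩ : ∃ ρ, ρ = Real.logb 2 goldenRatio := ⟨_, rfl⟩
  have hρ1 : 0.69 < ρ := by rw [hρ]; exact logb_gt
  have hρ2 : ρ < 1 := by rw [hρ]; exact logb_lt
  have hθ0 : 0.98 < θ := by nlinarith
  have hφ0 := Real.goldenRatio_pos
  have hφ1 := Real.one_lt_goldenRatio
  have hφ2 := Real.goldenRatio_lt_two
  have hlφ : 0 < Real.log goldenRatio := Real.log_pos hφ1
  rw [Filter.eventually_atTop] at ha
  obtain ⟨n0, hn0⟩ := ha
  have hK : 0 < K := by
    have h1 := (hn0 n0 le_rfl).1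
    have h2 : 0 < goldenRatio ^ n0 := by positivity
    have h3 : (0 : ℝ) ≤ a n0 := Nat.cast_nonneg _
    by_contra hcon
    have : K * a n0 ≤ 0 := mul_nonpos_of_nonpos_of_nonneg (not_lt.1 hcon) h3
    linarith
  obtain ⟨n1, hn1⟩ := exists_nat_gt (m / (1 - θ))
  obtain ⟨n2, hn2⟩ := exists_nat_gt (Real.log (4 * K) / (((1 + δ) * θ - 1) * Real.log goldenRatio))
  obtain ⟨n3, hn3⟩ := exists_nat_gt (Real.log (2 ^ m * K) / ((1 - θ) * Real.log goldenRatio))
  refine ⟨max (max n1 n2) (max (max n3 n0) 4), ?_⟩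
  have hfl : ∀ p : ℕ, θ * (p * ρ) - 1 < kk θ p ∧ (kk θ p : ℝ) ≤ θ * (p * ρ) := by
    intro p
    unfold kk
    rw [← hρ]
    exact ⟨Nat.sub_one_lt_floor _, Nat.floor_le (by positivity)⟩
  have hm0 : (0 : ℝ) ≤ m := Nat.cast_nonneg m
  refine ⟨by norm_num, le_rfl, ?_, ?_, ?_, ?_, ?_⟩
  · intro p hp _
    have hp4 : 4 ≤ p := ((le_max_right _ _).trans (le_max_right _ _)).trans hp
    have hp4r : (4 : ℝ) ≤ p := by exact_mod_cast hp4
    have h1 := (hfl p).1
    push_cast
    have h2 : 0.67 < θ * ρ := by nlinarith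
    have h3 : 1 / 4 * (p : ℝ) ≤ θ * (p * ρ) - 1 := by nlinarith
    linarith
  · intro p hp _
    have hpn : n1 ≤ p := ((le_max_left _ _).trans (le_max_left _ _)).trans hp
    have hpnr : (n1 : ℝ) ≤ p := by exact_mod_cast hpn
    have h1 := (hfl p).2
    have hp0 : (0 : ℝ) ≤ p := Nat.cast_nonneg _
    have h4 : m / (1 - θ) < p := hn1.trans_le hpnr
    rw [div_lt_iff₀ (by linarith)] at h4
    have h2 : ((kk θ p + m : ℕ) : ℝ) ≤ p := by
      push_cast
      have : θ * (p * ρ) ≤ θ * p := by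
        have : p * ρ ≤ p := by nlinarith
        nlinarith
      linarith
    rw [one_mul]
    exact_mod_cast h2
  · intro p hp q hpq hpp hqp
    have hp4 : 4 ≤ p := ((le_max_right _ _).trans (le_max_right _ _)).trans hp
    have hq2 : p + 2 ≤ q := by
      have h3 : p % 2 = 1 := (hpp.eq_two_or_odd).resolve_left (by omega)
      have h4 : q % 2 = 1 := (hqp.eq_two_or_odd).resolve_left (by omega)
      omega
    have hq2r : (p : ℝ) + 2 ≤ q := by exact_mod_cast hq2
    have h1 := (hfl p).2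
    have h2 := (hfl q).1
    have h3 : 0.5 < θ * ρ := by nlinarith
    have h4 : (kk θ p : ℝ) < kk θ q := by nlinarith
    have h5 : kk θ p < kk θ q := by exact_mod_cast h4
    exact Nat.add_lt_add_right h5 m
  · intro p hp _
    have hpn : n3 ≤ p := (((le_max_left _ _).trans (le_max_left _ _)).trans (le_max_right _ _)).trans hp
    have hpn0 : n0 ≤ p := (((le_max_right _ _).trans (le_max_left _ _)).trans (le_max_right _ _)).trans hp
    have hpnr : (n3 : ℝ) ≤ p := by exact_mod_cast hpn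
    have h1 := (hfl p).2
    have h2 : (2 : ℝ) ^ kk θ p ≤ goldenRatio ^ (θ * p) := by
      rw [← two_pow_logb, ← hρ, ← Real.rpow_natCast]
      refine Real.rpow_le_rpow_of_exponent_le (by norm_num) ?_
      linarith
    have h3 := (hn0 p hpn0).1
    have h6 : 2 ^ m * K * goldenRatio ^ (θ * p) ≤ goldenRatio ^ p := by
      have h7 : Real.log (2 ^ m * K) / ((1 - θ) * Real.log goldenRatio) < p := hn3.trans_le hpnr
      rw [div_lt_iff₀ (mul_pos (by linarith) hlφ)] at h7
      rw [← Real.log_le_log_iff (by positivity) (by positivity), Real.log_mul (by positivity) (by positivity),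
        Real.log_pow, Real.log_rpow hφ0]
      linarith
    have h8 : K * (2 : ℝ) ^ (kk θ p + m) ≤ K * a p := by
      calc K * (2 : ℝ) ^ (kk θ p + m) = 2 ^ m * K * (2 : ℝ) ^ kk θ p := by rw [pow_add]; ring
        _ ≤ 2 ^ m * K * goldenRatio ^ (θ * p) := by gcongr
        _ ≤ goldenRatio ^ p := h6
        _ ≤ _ := h3
    have h10 : (2 : ℝ) ^ (kk θ p + m) ≤ a p := le_of_mul_le_mul_left h8 hK
    exact_mod_cast h10
  · intro p hp _
    have hpn : n2 ≤ p := ((le_max_right _ _).trans (le_max_left _ _)).trans hp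
    have hpn0 : n0 ≤ p := (((le_max_right _ _).trans (le_max_left _ _)).trans (le_max_right _ _)).trans hp
    have hpnr : (n2 : ℝ) ≤ p := by exact_mod_cast hpn
    have h1 := (hfl p).1
    have h2 := (hn0 p hpn0).2
    refine h2.trans ?_
    have h3 : (2 : ℝ) ^ ((1 + δ) * (θ * (p * ρ) - 1)) ≤ (2 : ℝ) ^ ((1 + δ) * ((kk θ p + m : ℕ) : ℝ)) := by
      refine Real.rpow_le_rpow_of_exponent_le (by norm_num) ?_
      have : 0 < 1 + δ := by linarith
      push_cast
      nlinarith
    refine le_trans ?_ h3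
    have h4 : (2 : ℝ) ^ ((1 + δ) * (θ * (p * ρ) - 1)) = goldenRatio ^ ((1 + δ) * θ * p) * (2 : ℝ) ^ (-(1 + δ)) := by
      rw [← two_pow_logb, ← hρ, ← Real.rpow_add (by norm_num)]
      ring_nf
    rw [h4]
    have h5 : (1 / 4 : ℝ) ≤ (2 : ℝ) ^ (-(1 + δ)) := by
      calc (1 / 4 : ℝ) = (2 : ℝ) ^ (-2 : ℝ) := by norm_num [Real.rpow_neg]
        _ ≤ _ := Real.rpow_le_rpow_of_exponent_le (by norm_num) (by linarith)
    have h6 : 4 * K * goldenRatio ^ p ≤ goldenRatio ^ ((1 + δ) * θ * p) := by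
      have h7 : Real.log (4 * K) / (((1 + δ) * θ - 1) * Real.log goldenRatio) < p := hn2.trans_le hpnr
      rw [div_lt_iff₀ (mul_pos (by linarith) hlφ)] at h7
      rw [← Real.log_le_log_iff (by positivity) (by positivity), Real.log_mul (by positivity) (by positivity),
        Real.log_pow, Real.log_rpow hφ0]
      linarith
    have h8 : 0 < goldenRatio ^ ((1 + δ) * θ * p) := by positivity
    calc K * goldenRatio ^ p = 4 * K * goldenRatio ^ p * (1 / 4) := by ring
      _ ≤ goldenRatio ^ ((1 + δ) * θ * p) * (1 / 4) := mul_le_mul_of_nonneg_right h6 (by norm_num)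
      _ ≤ _ := mul_le_mul_of_nonneg_left h5 h8.le

/-- the positive solutions of the recurrence have the size of `φ ^ n` -/
lemma fib_size (U : ℕ → ℕ) (hU : ∀ n, U (n + 2) = U (n + 1) + U n) (h0 : U 0 ≠ 0 ∨ U 1 ≠ 0) :
    ∃ K : ℝ, ∀ᶠ n : ℕ in Filter.atTop, goldenRatio ^ n ≤ K * U n ∧ (U n : ℝ) ≤ K * goldenRatio ^ n := by
  have hφ0 := Real.goldenRatio_pos
  refine ⟨max (U 0 + U 1) (goldenRatio ^ 3), ?_⟩
  filter_upwards [Filter.eventually_ge_atTop 2] with n hn
  obtain ⟨l, rfl⟩ : ∃ l, n = l + 2 := ⟨n - 2, by omega⟩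
  constructor
  · have h1 := fib_lower U hU h0 l
    calc goldenRatio ^ (l + 2) = goldenRatio ^ 2 * goldenRatio ^ l := by rw [pow_add]; ring
      _ ≤ goldenRatio ^ 2 * (goldenRatio * U (l + 2)) := by gcongr
      _ = goldenRatio ^ 3 * U (l + 2) := by ring
      _ ≤ _ := mul_le_mul_of_nonneg_right (le_max_right _ _) (Nat.cast_nonneg _)
  · refine (fib_upper U hU _).trans ?_
    exact mul_le_mul_of_nonneg_right (le_max_left _ _) (by positivity)

end Pool.Agent.T9h55.PF
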