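import Pool.Agent.T9h55.PF.Me

/-! The almost everywhere statement (helper55). -/

set_option autoImplicit false

namespace Pool.Agent.T9h55.PF

open Finset Filter Topology MeasureTheory
open Pool.Agent.H305R2 (roughPart)
open Pool.Agent.N176.GP (XX XX_nonneg XX_sq sum_cells sum_div)

open Classical in
/-- the primes `p ≤ n` in `S` -/
noncomputable def PS (S : Set ℕ) (n : ℕ) : Finset ℕ := (range (n + 1)).filter (fun p => p.Prime ∧ p ∈ S)

lemma PS_mono (S : Set ℕ) {n n' : ℕ} (h : n ≤ n') : PS S n ⊆ PS S n' := by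
  classical
  intro p hp
  unfold PS at hp ⊢
  rw [mem_filter, mem_range] at hp ⊢
  exact ⟨by omega, hp.2⟩

lemma MM_mono (a k : ℕ → ℕ) {A A' : Finset ℕ} (h : A ⊆ A') (γ : ℝ) : MM a k A γ ≤ MM a k A' γ :=
  Finset.sum_le_sum_of_subset_of_nonneg h fun _ _ _ => XX_nonneg _ _

lemma vv_mono {A A' : Finset ℕ} (h : A ⊆ A') : vv A ≤ vv A' :=
  Finset.sum_le_sum_of_subset_of_nonneg h
    fun p _ _ => div_nonneg (Real.log_natCast_nonneg p) (Nat.cast_nonneg p)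

lemma log_div_le_one (p : ℕ) : Real.log p / p ≤ 1 := by
  rcases Nat.eq_zero_or_pos p with rfl | hp
  · simp
  · have hp0 : (0 : ℝ) < p := by exact_mod_cast hp
    rw [div_le_one hp0]
    linarith [Real.log_le_sub_one_of_pos hp0]

lemma MM_le_card (a k : ℕ → ℕ) (A : Finset ℕ) (γ : ℝ) : MM a k A γ ≤ #A := by
  unfold MM
  calc _ ≤ ∑ p ∈ A, (1 : ℝ) := Finset.sum_le_sum fun p _ => XX_le_one _ _
    _ = _ := by simp

/-- **the almost everywhere bounds** -/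
theorem ae_bounds : ∃ δ₀ : ℝ, 0 < δ₀ ∧ δ₀ ≤ 1 / 64 ∧ ∀ (δ c₁ : ℝ) (c₂ : ℕ), 0 < δ → δ ≤ δ₀ → 0 < c₁ → 1 ≤ c₂ →
    ∃ c C : ℝ, 0 < c ∧ 0 < C ∧ ∀ (a k : ℕ → ℕ) (N₀ : ℕ), Dat δ a k c₁ c₂ N₀ →
    ∀ S : Set ℕ, (∀ B : ℝ, ∃ n, B ≤ vv (PS S n)) →
      ∀ᵐ γ : ℝ, 0 < γ → γ < 1 → ∀ᶠ n : ℕ in atTop,
        c * vv (PS S n) ≤ MM a k (PS S n) γ ∧ MM a k (PS S n) γ ≤ C * vv (PS S n) := by
  classical
  obtain ⟨δ₀, hδ₀, hδ₀1, ht⟩ := tail
  refine ⟨δ₀, hδ₀, hδ₀1, fun δ c₁ c₂ hδ hδ0 hc₁ hc₂ => ?_⟩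
  obtain ⟨c, C, B, hc, hC, hB, htD⟩ := ht δ c₁ c₂ hδ hδ0 hc₁ hc₂
  refine ⟨c / 8, 5 * C + 1, by positivity, by positivity, fun a k N₀ D S hS => ?_⟩
  obtain ⟨N₁, hN, htail⟩ := htD a k N₀ D
  set A : ℕ → Finset ℕ := fun n => (PS S n).filter (fun p => N₁ < p) with hA
  have hAmem : ∀ n, ∀ p ∈ A n, p.Prime ∧ N₁ < p := by
    intro n p hp
    rw [hA] at hp
    simp only [mem_filter] at hp
    unfold PS at hp
    rw [mem_filter] at hp
    exact ⟨hp.1.2.1, hp.2⟩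
  have hAsub : ∀ n, A n ⊆ PS S n := fun n => filter_subset _ _
  have hAmono : ∀ {n n' : ℕ}, n ≤ n' → A n ⊆ A n' := fun h => Finset.filter_subset_filter _ (PS_mono S h)
  have hPS : ∀ n, PS S n ⊆ PS S N₁ ∪ A n := by
    intro n p hp
    rw [mem_union, hA]
    by_cases h : N₁ < p
    · exact Or.inr (mem_filter.2 ⟨hp, h⟩)
    · left
      unfold PS at hp ⊢
      rw [mem_filter, mem_range] at hp ⊢
      exact ⟨by omega, hp.2⟩
  have hcardN : (#(PS S N₁) : ℝ) ≤ N₁ + 1 := by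
    have : #(PS S N₁) ≤ N₁ + 1 := by
      unfold PS
      refine (Finset.card_filter_le _ _).trans ?_
      rw [card_range]
    exact_mod_cast this
  have hvN : vv (PS S N₁) ≤ N₁ + 1 := by
    refine le_trans ?_ hcardN
    unfold vv
    calc _ ≤ ∑ p ∈ PS S N₁, (1 : ℝ) := Finset.sum_le_sum fun p _ => log_div_le_one p
      _ = _ := by simp
  have hvle : ∀ n, vv (PS S n) ≤ (N₁ + 1) + vv (A n) := by
    intro n
    have h1 : vv (PS S n) ≤ vv (PS S N₁ ∪ A n) := vv_mono (hPS n)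
    have h2 : vv (PS S N₁ ∪ A n) ≤ vv (PS S N₁) + vv (A n) := by
      unfold vv
      have h3 := Finset.sum_union_inter (s₁ := PS S N₁) (s₂ := A n) (f := fun p : ℕ => Real.log p / p)
      have h4 : 0 ≤ ∑ p ∈ PS S N₁ ∩ A n, Real.log p / p := vv_nonneg _
      linarith
    linarith
  have hMle : ∀ n γ, MM a k (PS S n) γ ≤ (N₁ + 1) + MM a k (A n) γ := by
    intro n γ
    have h1 : MM a k (PS S n) γ ≤ MM a k (PS S N₁ ∪ A n) γ := MM_mono a k (hPS n) γ
    have h2 : MM a k (PS S N₁ ∪ A n) γ ≤ MM a k (PS S N₁) γ + MM a k (A n) γ := by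
      unfold MM
      have h3 := Finset.sum_union_inter (s₁ := PS S N₁) (s₂ := A n) (f := fun p : ℕ => XX p (a p + ⌊γ * 2 ^ k p⌋₊))
      have h4 : 0 ≤ ∑ p ∈ PS S N₁ ∩ A n, XX p (a p + ⌊γ * 2 ^ k p⌋₊) := MM_nonneg _ _ _ _
      linarith
    have h3 := MM_le_card a k (PS S N₁) γ
    linarith
  -- the times
  have hex : ∀ m : ℕ, ∃ n, ((m : ℝ) + 1) ^ 2 ≤ vv (A n) := by
    intro m
    obtain ⟨n, hn⟩ := hS ((N₁ + 1) + ((m : ℝ) + 1) ^ 2)
    exact ⟨n, by linarith [hvle n]⟩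
  set nn : ℕ → ℕ := fun m => Nat.find (hex m) with hnn
  have hnn1 : ∀ m : ℕ, ((m : ℝ) + 1) ^ 2 ≤ vv (A (nn m)) := fun m => Nat.find_spec (hex m)
  have hnn2 : ∀ m n : ℕ, ((m : ℝ) + 1) ^ 2 ≤ vv (A n) → nn m ≤ n := fun m n h => Nat.find_min' (hex m) h
  have hnn3 : ∀ m : ℕ, vv (A (nn m)) ≤ ((m : ℝ) + 1) ^ 2 + 1 := by
    intro m
    rcases Nat.eq_zero_or_pos (nn m) with h0 | h0
    · have h1 := hnn1 m
      rw [h0] at h1 ⊢
      have h2 : A 0 = ∅ := by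
        rw [Finset.eq_empty_iff_forall_notMem]
        intro p hp
        have h3 := hAmem 0 p hp
        have h4 := hAsub 0 hp
        unfold PS at h4
        rw [mem_filter, mem_range] at h4
        have := h3.1.pos
        omega
      rw [h2] at h1 ⊢
      simp only [vv, Finset.sum_empty] at h1 ⊢
      positivity
    · obtain ⟨l, hl⟩ : ∃ l, nn m = l + 1 := ⟨nn m - 1, by omega⟩
      have h1 : vv (A l) < ((m : ℝ) + 1) ^ 2 := by
        by_contra hcon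
        have := hnn2 m l (not_lt.1 hcon)
        omega
      rw [hl]
      have h2 : A (l + 1) ⊆ A l ∪ {l + 1} := by
        intro p hp
        rw [mem_union, mem_singleton]
        have h4 := hAsub _ hp
        have h5 := hAmem _ p hp
        unfold PS at h4
        rw [mem_filter, mem_range] at h4
        rcases Nat.lt_or_ge p (l + 1) with h6 | h6
        · left
          rw [hA]
          refine mem_filter.2 ⟨?_, h5.2⟩
          unfold PS
          rw [mem_filter, mem_range]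
          exact ⟨h6, h4.2⟩
        · right
          omega
      have h3 : vv (A (l + 1)) ≤ vv (A l) + Real.log ((l + 1 : ℕ) : ℝ) / ((l + 1 : ℕ) : ℝ) := by
        refine (vv_mono h2).trans ?_
        unfold vv
        have h3 := Finset.sum_union_inter (s₁ := A l) (s₂ := {l + 1}) (f := fun p : ℕ => Real.log p / p)
        have h4 : 0 ≤ ∑ p ∈ A l ∩ {l + 1}, Real.log p / p := vv_nonneg _
        rw [Finset.sum_singleton] at h3
        linarith
      have h4 := log_div_le_one (l + 1)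
      linarith
  -- Borel-Cantelli
  set Q : ℕ → ℝ → Prop := fun m γ => 0 < γ ∧ γ < 1 ∧
    (MM a k (A (nn m)) γ < c * vv (A (nn m)) ∨ C * vv (A (nn m)) < MM a k (A (nn m)) γ) with hQ
  have hmeas : ∀ m : ℕ, volume {γ : ℝ | Q m γ} ≤ ENNReal.ofReal (B * (1 / ((m : ℝ) + 1) ^ 2)) := by
    intro m
    have hpos : 0 < vv (A (nn m)) := lt_of_lt_of_le (by positivity) (hnn1 m)
    refine (htail (A (nn m)) (hAmem _) hpos).trans (ENNReal.ofReal_le_ofReal ?_)
    rw [mul_one_div]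
    exact div_le_div_of_nonneg_left hB.le (by positivity) (hnn1 m)
  have hsum : ∑' m : ℕ, volume {γ : ℝ | Q m γ} ≠ ⊤ := by
    refine ne_top_of_le_ne_top ?_ (ENNReal.tsum_le_tsum hmeas)
    have hs : Summable fun i : ℕ => B * (1 / ((i : ℝ) + 1) ^ 2) := by
      refine Summable.mul_left _ ?_
      have h1 := (summable_nat_add_iff 1).2 (Real.summable_one_div_nat_pow.2 (show 1 < 2 by norm_num))
      refine h1.congr fun i => ?_
      push_cast
      rfl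
    rw [← ENNReal.ofReal_tsum_of_nonneg (fun i => by positivity) hs]
    exact ENNReal.ofReal_ne_top
  have hfr := measure_setOfPred_frequently_eq_zero hsum
  have hae1 : ∀ᵐ γ : ℝ, ¬ ∃ᶠ i in atTop, Q i γ := by
    rw [ae_iff]
    simpa only [not_not] using hfr
  filter_upwards [hae1] with γ hγ h0 h1
  rw [not_frequently, eventually_atTop] at hγ
  obtain ⟨m₀, hm₀⟩ := hγ
  have hgood : ∀ m ≥ m₀, c * vv (A (nn m)) ≤ MM a k (A (nn m)) γ ∧ MM a k (A (nn m)) γ ≤ C * vv (A (nn m)) := by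
    intro m hm
    have h2 := hm₀ m hm
    constructor
    · by_contra hcon
      exact h2 ⟨h0, h1, Or.inl (not_le.1 hcon)⟩
    · by_contra hcon
      exact h2 ⟨h0, h1, Or.inr (not_le.1 hcon)⟩
  obtain ⟨n₀, hn₀⟩ := hS (2 * (N₁ + 1) + ((m₀ : ℝ) + 1) ^ 2 + 1)
  filter_upwards [eventually_ge_atTop n₀] with n hn
  have hvn : 2 * (N₁ + 1) + ((m₀ : ℝ) + 1) ^ 2 + 1 ≤ vv (PS S n) := hn₀.trans (vv_mono (PS_mono S hn))
  have hN0 : (0 : ℝ) ≤ N₁ := Nat.cast_nonneg _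
  have hvA := hvle n
  have hvA2 : vv (A n) ≤ vv (PS S n) := vv_mono (hAsub n)
  have hm0sq : 0 ≤ ((m₀ : ℝ) + 1) ^ 2 := by positivity
  have hAn : ((m₀ : ℝ) + 1) ^ 2 ≤ vv (A n) := by linarith
  have hAn2 : vv (PS S n) ≤ 2 * vv (A n) := by linarith
  have hAnpos : 1 ≤ vv (A n) := by nlinarith [(Nat.cast_nonneg m₀ : (0 : ℝ) ≤ m₀)]
  -- the index
  obtain ⟨w, hw⟩ : ∃ w, w = ⌊Real.sqrt (vv (A n))⌋₊ := ⟨_, rfl⟩
  have hsq : Real.sqrt (vv (A n)) ^ 2 = vv (A n) := Real.sq_sqrt (by linarith)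
  have hsq0 : 0 ≤ Real.sqrt (vv (A n)) := Real.sqrt_nonneg _
  have hw1 : (w : ℝ) ≤ Real.sqrt (vv (A n)) := by
    rw [hw]
    exact Nat.floor_le hsq0
  have hw2 : Real.sqrt (vv (A n)) < w + 1 := by
    rw [hw]
    exact Nat.lt_floor_add_one _
  have hw3 : m₀ + 1 ≤ w := by
    rw [hw]
    refine Nat.le_floor ?_
    push_cast
    exact Real.le_sqrt_of_sq_le hAn
  obtain ⟨m, hm⟩ : ∃ m, w = m + 1 := ⟨w - 1, by omega⟩
  have hmm₀ : m₀ ≤ m := by omega
  have hwm : (w : ℝ) = m + 1 := by rw [hm]; push_cast; ring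
  rw [hwm] at hw1 hw2
  have hm0 : (0 : ℝ) ≤ m := Nat.cast_nonneg _
  have hlow : ((m : ℝ) + 1) ^ 2 ≤ vv (A n) := by nlinarith
  have hupp : vv (A n) < ((m : ℝ) + 2) ^ 2 := by nlinarith
  have hnm : nn m ≤ n := hnn2 m n hlow
  have hnm1 : n ≤ nn (m + 1) := by
    by_contra hcon
    have h2 := hnn1 (m + 1)
    have h3 := vv_mono (hAmono (not_le.1 hcon).le)
    push_cast at h2
    nlinarith
  obtain ⟨g1, _⟩ := hgood m hmm₀
  obtain ⟨_, g2⟩ := hgood (m + 1) (by omega)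
  have g3 := hnn3 (m + 1)
  push_cast at g3
  constructor
  · calc c / 8 * vv (PS S n) ≤ c / 8 * (2 * vv (A n)) := by gcongr
      _ = c * (vv (A n) / 4) := by ring
      _ ≤ c * ((m : ℝ) + 1) ^ 2 := by
          have e1 : ((m : ℝ) + 2) ^ 2 ≤ 4 * ((m : ℝ) + 1) ^ 2 := by nlinarith
          have e2 : vv (A n) / 4 ≤ ((m : ℝ) + 1) ^ 2 := by linarith
          exact mul_le_mul_of_nonneg_left e2 hc.le
      _ ≤ c * vv (A (nn m)) := by
          have := hnn1 m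
          gcongr
      _ ≤ MM a k (A (nn m)) γ := g1
      _ ≤ MM a k (PS S n) γ := MM_mono a k ((hAmono hnm).trans (hAsub n)) γ
  · calc MM a k (PS S n) γ ≤ (N₁ + 1) + MM a k (A n) γ := hMle n γ
      _ ≤ (N₁ + 1) + MM a k (A (nn (m + 1))) γ := by
          have := MM_mono a k (hAmono hnm1) γ
          linarith
      _ ≤ (N₁ + 1) + C * (((m : ℝ) + 2) ^ 2 + 1) := by
          have : vv (A (nn (m + 1))) ≤ ((m : ℝ) + 2) ^ 2 + 1 := by
            refine g3.trans (le_of_eq ?_)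
            ring
          have := mul_le_mul_of_nonneg_left this hC.le
          linarith
      _ ≤ vv (PS S n) + C * (5 * vv (A n)) := by
          have e1 : ((m : ℝ) + 2) ^ 2 + 1 ≤ 5 * ((m : ℝ) + 1) ^ 2 := by nlinarith
          have e2 : ((m : ℝ) + 2) ^ 2 + 1 ≤ 5 * vv (A n) := by linarith
          have e3 := mul_le_mul_of_nonneg_left e2 hC.le
          linarith
      _ ≤ vv (PS S n) + C * (5 * vv (PS S n)) := by gcongr
      _ = _ := by ring

end Pool.Agent.T9h55.PF
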