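import Pool.Agent.T9h55.PF.Cell3

/-! A dyadic block of exponents, given the first digits (helper55; after `Pool.Agent.N176.GP.Block`). -/

set_option autoImplicit false

namespace Pool.Agent.T9h55.PF

open Finset Filter Topology
open Pool.Agent.H305R2 (roughPart)
open Pool.Agent.N176.GP (XX XX_nonneg XX_sq sum_cells sum_div card_primes log_div_le geo_dist)

/-- the number of the indices in `T` with prime rough part; `n` has the level `t` -/
noncomputable def HH (a k : ℕ → ℕ) (T : Finset ℕ) (t n : ℕ) : ℝ := ∑ p ∈ T, XX p (a p + n / 2 ^ (t - k p))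

/-- the weight -/
noncomputable def vv (T : Finset ℕ) : ℝ := ∑ p ∈ T, Real.log p / p

lemma vv_nonneg (T : Finset ℕ) : 0 ≤ vv T :=
  Finset.sum_nonneg fun p _ => div_nonneg (Real.log_natCast_nonneg p) (Nat.cast_nonneg p)

lemma HH_nonneg (a k : ℕ → ℕ) (T : Finset ℕ) (t n : ℕ) : 0 ≤ HH a k T t n :=
  Finset.sum_nonneg fun _ _ => XX_nonneg _ _

lemma sum_one' {a k : ℕ → ℕ} {p z j t : ℕ} (hzp : z ≤ k p) (hpt : k p ≤ t) :
    ∑ n ∈ Ico (j * 2 ^ (t - z)) ((j + 1) * 2 ^ (t - z)), XX p (a p + n / 2 ^ (t - k p)) =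
      (2 : ℝ) ^ (t - k p) * ∑ n ∈ Ico (j * 2 ^ (k p - z)) ((j + 1) * 2 ^ (k p - z)), XX p (a p + n) := by
  have e : 2 ^ (t - z) = 2 ^ (k p - z) * 2 ^ (t - k p) := by rw [← pow_add]; congr 1; omega
  rw [e, ← mul_assoc, ← mul_assoc, sum_div _ _ _ (by positivity) (Nat.mul_le_mul_right _ (Nat.le_succ j))
    (fun m => XX p (a p + m))]
  push_cast
  rfl

lemma sum_two' {a k : ℕ → ℕ} {p q z j t : ℕ} (hzp : z ≤ k q) (hpq : k p ≤ k q) (hqt : k q ≤ t) :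
    ∑ n ∈ Ico (j * 2 ^ (t - z)) ((j + 1) * 2 ^ (t - z)),
      XX p (a p + n / 2 ^ (t - k p)) * XX q (a q + n / 2 ^ (t - k q)) =
      (2 : ℝ) ^ (t - k q) * ∑ n ∈ Ico (j * 2 ^ (k q - z)) ((j + 1) * 2 ^ (k q - z)),
        XX p (a p + n / 2 ^ (k q - k p)) * XX q (a q + n) := by
  have e : 2 ^ (t - z) = 2 ^ (k q - z) * 2 ^ (t - k q) := by rw [← pow_add]; congr 1; omega
  have e2 : 2 ^ (t - k p) = 2 ^ (t - k q) * 2 ^ (k q - k p) := by rw [← pow_add]; congr 1; omega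
  rw [e, ← mul_assoc, ← mul_assoc, e2]
  simp only [← Nat.div_div_eq_div_mul]
  rw [sum_div _ _ _ (by positivity) (Nat.mul_le_mul_right _ (Nat.le_succ j))
    (fun m => XX p (a p + m / 2 ^ (k q - k p)) * XX q (a q + m))]
  push_cast
  rfl

lemma block : ∃ δ₀ : ℝ, 0 < δ₀ ∧ δ₀ ≤ 1 / 64 ∧ ∀ (δ c₁ : ℝ) (c₂ : ℕ), 0 < δ → δ ≤ δ₀ → 0 < c₁ → 1 ≤ c₂ →
    ∃ c C : ℝ, 0 < c ∧ 0 < C ∧ ∀ (a k : ℕ → ℕ) (N₀ : ℕ), Dat δ a k c₁ c₂ N₀ → ∃ P : ℕ, ∀ x ≥ P, ∀ T : Finset ℕ,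
    (∀ p ∈ T, p.Prime ∧ x < p ∧ p ≤ 2 * x) → ∀ z : ℕ, (z : ℝ) ≤ δ * c₁ * x → ∀ t : ℕ, 2 * c₂ * x ≤ t →
    ∀ j < 2 ^ z,
      c * vv T * (2 : ℝ) ^ (t - z) ≤ ∑ n ∈ Ico (j * 2 ^ (t - z)) ((j + 1) * 2 ^ (t - z)), HH a k T t n ∧
      ∑ n ∈ Ico (j * 2 ^ (t - z)) ((j + 1) * 2 ^ (t - z)), HH a k T t n ≤ C * vv T * (2 : ℝ) ^ (t - z) ∧
      ∑ n ∈ Ico (j * 2 ^ (t - z)) ((j + 1) * 2 ^ (t - z)), HH a k T t n ^ 2 ≤ C * vv T * (2 : ℝ) ^ (t - z) ∧
      vv T ≤ C := by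
  classical
  obtain ⟨δ₀, hδ₀, hδ₀1, hcell⟩ := cell_one
  refine ⟨δ₀, hδ₀, hδ₀1, fun δ c₁ c₂ hδ hδ0 hc₁ hc₂ => ?_⟩
  have hδb : δ ≤ 1 / 64 := hδ0.trans hδ₀1
  obtain ⟨c, C₁, hc, hC₁, h1D⟩ := hcell δ c₁ c₂ hδ hδ0 hc₁ hc₂
  obtain ⟨C₂, hC₂, h2D⟩ := cell_two δ c₁ c₂ hδ hδb hc₁ hc₂ C₁ hC₁
  obtain ⟨C₃, hC₃, hcard⟩ := card_primes
  set C := C₁ + C₂ with hC
  refine ⟨c / 2, 2 * C + 2 * C * (C₃ + 4) + 2 * C₃, by positivity, by positivity, fun a k N₀ D => ?_⟩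
  obtain ⟨P₁, h1⟩ := h1D a k N₀ D
  obtain ⟨P₂, h2⟩ := h2D a k N₀ D P₁ (fun x hx p hp hxp hpx z hz j hj => (h1 x hx p hp hxp hpx z hz j hj).2)
  refine ⟨max (max P₁ P₂) (max 2 N₀), fun x hx T hT z hz t ht j hj => ?_⟩
  have hxP1 : P₁ ≤ x := ((le_max_left _ _).trans (le_max_left _ _)).trans hx
  have hxP2 : P₂ ≤ x := ((le_max_right _ _).trans (le_max_left _ _)).trans hx
  have hx2 : 2 ≤ x := ((le_max_left _ _).trans (le_max_right _ _)).trans hx
  have hxN : N₀ ≤ x := ((le_max_right _ _).trans (le_max_right _ _)).trans hx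
  have hx2r : (2 : ℝ) ≤ x := by exact_mod_cast hx2
  have hx0 : (0 : ℝ) < x := by linarith
  have hlogx : 0 < Real.log x := Real.log_pos (by linarith)
  set L := Real.log x / x with hL
  have hL0 : 0 < L := by positivity
  set N := (2 : ℝ) ^ (t - z) with hN
  have hN0 : 0 < N := by positivity
  set Ω := Ico (j * 2 ^ (t - z)) ((j + 1) * 2 ^ (t - z)) with hΩ
  have hTk : ∀ p ∈ T, (z : ℝ) ≤ δ * k p ∧ z ≤ k p ∧ k p ≤ t := by
    intro p hp
    obtain ⟨q1, q2, q3⟩ := hT p hp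
    have d1 := D.lo p (by omega) q1
    have d2 := D.hi p (by omega) q1
    have hxp : (x : ℝ) ≤ p := by exact_mod_cast q2.le
    have e1 : (z : ℝ) ≤ δ * k p := by
      calc (z : ℝ) ≤ δ * c₁ * x := hz
        _ ≤ δ * c₁ * p := by gcongr
        _ = δ * (c₁ * p) := by ring
        _ ≤ δ * k p := by gcongr
    refine ⟨e1, ?_, ?_⟩
    · have : (z : ℝ) ≤ k p := by
        refine e1.trans ?_
        have : (0 : ℝ) ≤ k p := Nat.cast_nonneg _
        nlinarith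
      exact_mod_cast this
    · calc k p ≤ c₂ * p := d2
        _ ≤ c₂ * (2 * x) := Nat.mul_le_mul_left _ q3
        _ = 2 * c₂ * x := by ring
        _ ≤ t := ht
  have hw : ∀ p ∈ T, L ≤ 2 * (Real.log p / p) ∧ Real.log p / p ≤ 2 * L := by
    intro p hp
    obtain ⟨q1, q2, q3⟩ := hT p hp
    have hxp : (x : ℝ) ≤ p := by exact_mod_cast q2.le
    have hp2 : (p : ℝ) ≤ 2 * x := by exact_mod_cast q3
    have hp0 : (0 : ℝ) < p := by linarith
    constructor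
    · have e3 : Real.log x ≤ Real.log p := Real.log_le_log hx0 hxp
      rw [hL, div_le_iff₀ hx0]
      have e4 : 2 * (Real.log p / p) * x = Real.log p * (2 * x / p) := by ring
      rw [e4]
      have e5 : 1 ≤ 2 * (x : ℝ) / p := by rwa [one_le_div hp0]
      nlinarith
    · have := log_div_le hx2 q2 q3
      rw [hL]
      refine this.trans (le_of_eq ?_)
      ring
  have hTL : (#T : ℝ) * L ≤ C₃ := by
    calc (#T : ℝ) * L ≤ (C₃ * x / Real.log x) * L := by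
          gcongr
          exact hcard x hx2 T hT
      _ = C₃ := by rw [hL]; field_simp
  have hTv : (#T : ℝ) * L ≤ 2 * vv T := by
    unfold vv
    rw [Finset.mul_sum, ← nsmul_eq_mul, ← Finset.sum_const]
    exact Finset.sum_le_sum fun p hp => (hw p hp).1
  have hvT : vv T ≤ 2 * ((#T : ℝ) * L) := by
    unfold vv
    calc ∑ p ∈ T, Real.log p / p ≤ ∑ p ∈ T, 2 * L := Finset.sum_le_sum fun p hp => (hw p hp).2
      _ = _ := by rw [Finset.sum_const, nsmul_eq_mul]; ring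
  have hv0 := vv_nonneg T
  have hNk : ∀ p ∈ T, N = (2 : ℝ) ^ (t - k p) * (2 : ℝ) ^ (k p - z) := by
    intro p hp
    obtain ⟨_, q2, q3⟩ := hTk p hp
    rw [hN, ← pow_add]; congr 1; omega
  -- one exponent
  have hlow : ∀ p ∈ T, c * L * N ≤ ∑ n ∈ Ω, XX p (a p + n / 2 ^ (t - k p)) := by
    intro p hp
    obtain ⟨q1, q2, q3⟩ := hTk p hp
    obtain ⟨r1, r2, r3⟩ := hT p hp
    rw [hΩ, sum_one' q2 q3, hNk p hp]
    have h4 := (h1 x hxP1 p r1 r2 r3 z q1 j hj).1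
    calc c * L * ((2 : ℝ) ^ (t - k p) * (2 : ℝ) ^ (k p - z)) =
          (2 : ℝ) ^ (t - k p) * (c * L * (2 : ℝ) ^ (k p - z)) := by ring
      _ ≤ _ := mul_le_mul_of_nonneg_left h4 (by positivity)
  have hup : ∀ p ∈ T, ∑ n ∈ Ω, XX p (a p + n / 2 ^ (t - k p)) ≤ C₁ * L * N := by
    intro p hp
    obtain ⟨q1, q2, q3⟩ := hTk p hp
    obtain ⟨r1, r2, r3⟩ := hT p hp
    rw [hΩ, sum_one' q2 q3, hNk p hp]
    have h4 := (h1 x hxP1 p r1 r2 r3 z q1 j hj).2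
    calc _ ≤ (2 : ℝ) ^ (t - k p) * (C₁ * L * (2 : ℝ) ^ (k p - z)) := mul_le_mul_of_nonneg_left h4 (by positivity)
      _ = _ := by ring
  -- two exponents
  have hF : ∀ p ∈ T, ∀ q ∈ T, p ≤ q →
      ∑ n ∈ Ω, XX p (a p + n / 2 ^ (t - k p)) * XX q (a q + n / 2 ^ (t - k q)) ≤
        C * (L ^ 2 + ((2 : ℝ) ^ ((k p - k q) + (k q - k p)))⁻¹ * L) * N := by
    intro p hp q hq hpq
    obtain ⟨q1, q2, q3⟩ := hTk p hp
    obtain ⟨q1', q2', q3'⟩ := hTk q hq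
    obtain ⟨r1, r2, r3⟩ := hT p hp
    obtain ⟨r1', r2', r3'⟩ := hT q hq
    rcases Nat.eq_or_lt_of_le hpq with h | h
    · subst h
      have e : (k p - k p) + (k p - k p) = 0 := by omega
      rw [e, pow_zero, inv_one, one_mul]
      simp only [XX_sq]
      refine (hup p hp).trans ?_
      have : C₁ * L ≤ C * (L ^ 2 + L) := by nlinarith [sq_nonneg L, mul_pos hC₂ hL0, mul_pos hC₁ hL0]
      exact mul_le_mul_of_nonneg_right this hN0.le
    · have hk := D.mono p (by omega) q h r1 r1'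
      rw [hΩ, sum_two' q2' hk.le q3', hNk q hq]
      have e : (k p - k q) + (k q - k p) = k q - k p := by omega
      rw [e]
      have h6 := h2 x hxP2 p q r1 r1' r2 h r3' z q1 j hj
      calc _ ≤ (2 : ℝ) ^ (t - k q) * (C₂ * (L ^ 2 + ((2 : ℝ) ^ (k q - k p))⁻¹ * L) * (2 : ℝ) ^ (k q - z)) :=
            mul_le_mul_of_nonneg_left h6 (by positivity)
        _ = C₂ * (L ^ 2 + ((2 : ℝ) ^ (k q - k p))⁻¹ * L) * ((2 : ℝ) ^ (t - k q) * (2 : ℝ) ^ (k q - z)) := by ring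
        _ ≤ _ := by
            gcongr
            linarith
  have hF' : ∀ p ∈ T, ∀ q ∈ T,
      ∑ n ∈ Ω, XX p (a p + n / 2 ^ (t - k p)) * XX q (a q + n / 2 ^ (t - k q)) ≤
        C * (L ^ 2 + ((2 : ℝ) ^ ((k p - k q) + (k q - k p)))⁻¹ * L) * N := by
    intro p hp q hq
    rcases le_total p q with h | h
    · exact hF p hp q hq h
    · have := hF q hq p hp h
      rw [add_comm (k q - k p) (k p - k q)] at this
      refine le_trans (le_of_eq ?_) this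
      exact Finset.sum_congr rfl fun n _ => mul_comm _ _
  have hgeo : ∀ p ∈ T, ∑ q ∈ T, ((2 : ℝ) ^ ((k p - k q) + (k q - k p)))⁻¹ ≤ 4 := by
    intro p hp
    have hinj : Set.InjOn k (T : Set ℕ) := by
      intro u hu v hv huv
      rw [Finset.mem_coe] at hu hv
      obtain ⟨r1, r2, r3⟩ := hT u hu
      obtain ⟨r1', r2', r3'⟩ := hT v hv
      rcases lt_trichotomy u v with h | h | h
      · have := D.mono u (by omega) v h r1 r1'
        omega
      · exact h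
      · have := D.mono v (by omega) u h r1' r1
        omega
    have h1 := geo_dist (b := 2) le_rfl (T.image k) (k p)
    rw [Finset.sum_image hinj] at h1
    exact_mod_cast h1
  have hsecond : ∑ n ∈ Ω, HH a k T t n ^ 2 ≤ C * N * ((#T * L) ^ 2 + 4 * (#T * L)) := by
    have h1 : ∑ n ∈ Ω, HH a k T t n ^ 2 = ∑ p ∈ T, ∑ q ∈ T,
        ∑ n ∈ Ω, XX p (a p + n / 2 ^ (t - k p)) * XX q (a q + n / 2 ^ (t - k q)) := by
      have h2 : ∀ n, HH a k T t n ^ 2 =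
          ∑ p ∈ T, ∑ q ∈ T, XX p (a p + n / 2 ^ (t - k p)) * XX q (a q + n / 2 ^ (t - k q)) := by
        intro n
        unfold HH
        rw [sq, Finset.sum_mul_sum]
      simp only [h2]
      rw [Finset.sum_comm]
      refine Finset.sum_congr rfl fun p _ => ?_
      rw [Finset.sum_comm]
    rw [h1]
    calc _ ≤ ∑ p ∈ T, ∑ q ∈ T, C * (L ^ 2 + ((2 : ℝ) ^ ((k p - k q) + (k q - k p)))⁻¹ * L) * N :=
          Finset.sum_le_sum fun p hp => Finset.sum_le_sum fun q hq => hF' p hp q hq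
      _ = C * N * ∑ p ∈ T, (#T * L ^ 2 + (∑ q ∈ T, ((2 : ℝ) ^ ((k p - k q) + (k q - k p)))⁻¹) * L) := by
          rw [Finset.mul_sum]
          refine Finset.sum_congr rfl fun p _ => ?_
          rw [Finset.sum_mul, ← nsmul_eq_mul, ← Finset.sum_const, ← Finset.sum_add_distrib, Finset.mul_sum]
          refine Finset.sum_congr rfl fun q _ => by ring
      _ ≤ C * N * ∑ p ∈ T, (#T * L ^ 2 + 4 * L) := by
          gcongr with p hp
          exact hgeo p hp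
      _ = _ := by
          rw [Finset.sum_const, nsmul_eq_mul]; ring
  refine ⟨?_, ?_, ?_, ?_⟩
  · unfold HH
    rw [Finset.sum_comm]
    calc c / 2 * vv T * N ≤ c / 2 * (2 * ((#T : ℝ) * L)) * N := by gcongr
      _ = ∑ p ∈ T, c * L * N := by rw [Finset.sum_const, nsmul_eq_mul]; ring
      _ ≤ _ := Finset.sum_le_sum hlow
  · unfold HH
    rw [Finset.sum_comm]
    calc _ ≤ ∑ p ∈ T, C₁ * L * N := Finset.sum_le_sum hup
      _ = C₁ * ((#T : ℝ) * L) * N := by rw [Finset.sum_const, nsmul_eq_mul]; ring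
      _ ≤ C₁ * (2 * vv T) * N := by gcongr
      _ = 2 * C₁ * (vv T * N) := by ring
      _ ≤ (2 * C + 2 * C * (C₃ + 4) + 2 * C₃) * (vv T * N) := by
          refine mul_le_mul_of_nonneg_right ?_ (by positivity)
          have : 0 ≤ 2 * C * (C₃ + 4) := by positivity
          linarith
      _ = _ := by ring
  · refine hsecond.trans ?_
    have hTL0 : 0 ≤ (#T : ℝ) * L := by positivity
    have e1 : ((#T : ℝ) * L) ^ 2 + 4 * (#T * L) ≤ (C₃ + 4) * (2 * vv T) := by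
      calc ((#T : ℝ) * L) ^ 2 + 4 * (#T * L) = (#T * L + 4) * (#T * L) := by ring
        _ ≤ (C₃ + 4) * (2 * vv T) := mul_le_mul (by linarith) hTv hTL0 (by linarith)
    calc C * N * (((#T : ℝ) * L) ^ 2 + 4 * (#T * L)) ≤ C * N * ((C₃ + 4) * (2 * vv T)) := by gcongr
      _ = 2 * C * (C₃ + 4) * (vv T * N) := by ring
      _ ≤ (2 * C + 2 * C * (C₃ + 4) + 2 * C₃) * (vv T * N) := by
          refine mul_le_mul_of_nonneg_right ?_ (by positivity)
          linarith [hC₁, hC₂]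
      _ = _ := by ring
  · have : 0 ≤ 2 * C + 2 * C * (C₃ + 4) := by positivity
    linarith

end Pool.Agent.T9h55.PF
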