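import Pool.Agent.N176.GP.Block

/-! The integers of a short interval with prime `p`-rough part: lower bound (helper55; after
`Pool.Agent.N176.GP.Low`). -/

set_option autoImplicit false

namespace Pool.Agent.T9h55.PF

open Finset Filter Topology
open Pool.Agent.H305R2 (roughPart roughPart_prime roughPart_mul SM SM_pos SMz mem_SMz VV ZZ VV_nonneg
  ZZ_nonneg ZZ_le_exp VV_tendsto sum_le_VV sum_rough_eq log_nat_tendsto)
open Pool.Agent.N176.GP (grow half_le_div)

theorem low : ∃ δ : ℝ, 0 < δ ∧ δ < 1 ∧ ∀ c₀ C₀ : ℝ, 0 < c₀ → 0 < C₀ → ∃ c : ℝ, 0 < c ∧ ∃ P : ℕ, ∀ p ≥ P,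
    ∀ A H : ℕ, H ≤ A → Real.exp (c₀ * p) ≤ H → (A : ℝ) ≤ Real.exp (C₀ * p) → (A : ℝ) ^ (1 - δ) ≤ H →
    c * (Real.log p / p) * H ≤ #((Ico A (A + H)).filter (fun n => (roughPart p n).Prime)) := by
  obtain ⟨δ, η, hδ, hδ1, hη, X0, hX0, hH⟩ := Pool.Agent.H469R10.HO.hoheisel
  refine ⟨δ / 2, by positivity, by linarith, fun c₀ C₀ hc₀ hC₀ => ?_⟩
  have hev := ((grow c₀ (8 * (X0 + 2)) hc₀).and
    ((grow (c₀ * (δ / 2)) 4 (by positivity)).and (eventually_ge_atTop 2))).exists_forall_of_atTop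
  obtain ⟨P, hP⟩ := hev
  refine ⟨η / (4 * C₀), by positivity, P, fun p hp A H hHA hexpH hAexp hAH => ?_⟩
  obtain ⟨g1, g2, hp2⟩ := hP p hp
  have hp2r : (2 : ℝ) ≤ p := by exact_mod_cast hp2
  have hp0 : (0 : ℝ) < p := by linarith
  have hH0 : (0 : ℝ) < H := lt_of_lt_of_le (Real.exp_pos _) hexpH
  have hHpos : 0 < H := by exact_mod_cast hH0
  have hApos : 0 < A := by omega
  have hA0 : (0 : ℝ) < A := by exact_mod_cast hApos
  have hHbig : 8 * (X0 + 2) * (p : ℝ) ^ 2 ≤ H := g1.trans hexpH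
  -- the count
  have hcnt : (#((Ico A (A + H)).filter (fun n => (roughPart p n).Prime)) : ℝ) =
      ∑ s ∈ SMz p ((A + H - 1 : ℕ) : ℝ),
      ∑ q ∈ (Ioc ((A - 1) / s) ((A + H - 1) / s)).filter (fun q => q.Prime ∧ p < q), (1 : ℝ) := by
    rw [← sum_rough_eq p (A - 1) (A + H - 1) (fun _ => (1 : ℝ))]
    have e : Ico A (A + H) = Ioc (A - 1) (A + H - 1) := by
      ext x
      rw [mem_Ico, mem_Ioc]
      omega
    rw [e, Finset.sum_const, nsmul_eq_mul, mul_one]
  rw [hcnt]
  -- restriction to `s ≤ p`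
  have hpH : (p : ℝ) ≤ H := by
    refine le_trans ?_ hHbig
    have : (0 : ℝ) ≤ X0 := Nat.cast_nonneg _
    nlinarith
  have hpHn : p ≤ H := by exact_mod_cast hpH
  have hsub : Icc 1 p ⊆ SMz p ((A + H - 1 : ℕ) : ℝ) := by
    intro s hs
    rw [mem_Icc] at hs
    rw [mem_SMz (Nat.cast_nonneg _)]
    refine ⟨Nat.mem_smoothNumbers_of_lt (by omega) (by omega), ?_⟩
    have : s ≤ A + H - 1 := by omega
    exact_mod_cast this
  have hstep : ∀ s ∈ Icc 1 p, η * ((H : ℝ) / (4 * s)) / (C₀ * p) ≤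
      ∑ q ∈ (Ioc ((A - 1) / s) ((A + H - 1) / s)).filter (fun q => q.Prime ∧ p < q), (1 : ℝ) := by
    intro s hs
    rw [mem_Icc] at hs
    obtain ⟨hs1, hsp⟩ := hs
    have hs0 : (0 : ℝ) < s := by exact_mod_cast hs1
    have hspr : (s : ℝ) ≤ p := by exact_mod_cast hsp
    set X := A / s with hX
    set Y := H / (2 * s) with hY
    have hX0r : (0 : ℝ) ≤ X0 := Nat.cast_nonneg _
    have h2sH : 2 * s ≤ H := by
      have : ((2 * s : ℕ) : ℝ) ≤ H := by
        push_cast
        refine le_trans ?_ hHbig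
        nlinarith
      exact_mod_cast this
    have hYlow : (H : ℝ) / (4 * s) ≤ Y := half_le_div hs1 h2sH
    have hYX : Y ≤ X := by
      calc Y = H / (2 * s) := rfl
        _ ≤ A / (2 * s) := Nat.div_le_div_right hHA
        _ ≤ A / s := Nat.div_le_div_left (by omega) hs1
    have hYr : (X0 : ℝ) + p ≤ Y := by
      refine le_trans ?_ hYlow
      rw [le_div_iff₀ (by positivity)]
      refine le_trans ?_ hHbig
      nlinarith [mul_nonneg hX0r hp0.le, mul_nonneg (mul_nonneg hX0r hp0.le) hs0.le,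
        mul_nonneg hX0r (sub_nonneg.2 hspr), mul_nonneg hp0.le (sub_nonneg.2 hspr),
        mul_nonneg (mul_nonneg hX0r hp0.le) (sub_nonneg.2 hp2r), sq_nonneg (p : ℝ)]
    have hXX0 : X0 + p ≤ X := by
      have : X0 + p ≤ Y := by exact_mod_cast hYr
      omega
    have hXA : (X : ℝ) ≤ A := by exact_mod_cast Nat.div_le_self A s
    have hXexp : (X : ℝ) ≤ Real.exp (C₀ * p) := hXA.trans hAexp
    have hXpos : (0 : ℝ) < X := by
      have : 0 < X := by omega
      exact_mod_cast this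
    have hcond : (X : ℝ) ^ (1 - δ) ≤ Y := by
      refine le_trans ?_ hYlow
      rw [le_div_iff₀ (by positivity)]
      have h10 : 0 ≤ 1 - δ := by linarith
      have hs4 : 4 * (s : ℝ) ≤ (A : ℝ) ^ (δ / 2) := by
        calc 4 * (s : ℝ) ≤ 4 * (p : ℝ) ^ 2 := by nlinarith
          _ ≤ Real.exp (c₀ * (δ / 2) * p) := g2
          _ = Real.exp (c₀ * p) ^ (δ / 2) := by
              rw [← Real.exp_mul]
              ring_nf
          _ ≤ (H : ℝ) ^ (δ / 2) := Real.rpow_le_rpow (Real.exp_pos _).le hexpH (by positivity)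
          _ ≤ (A : ℝ) ^ (δ / 2) := Real.rpow_le_rpow hH0.le (by exact_mod_cast hHA) (by positivity)
      calc (X : ℝ) ^ (1 - δ) * (4 * s) ≤ (A : ℝ) ^ (1 - δ) * (A : ℝ) ^ (δ / 2) := by
            gcongr
        _ = (A : ℝ) ^ (1 - δ / 2) := by
            rw [← Real.rpow_add hA0]
            ring_nf
        _ ≤ H := hAH
    have hmain := hH X Y (by omega) hcond hYX
    have hlogX : Real.log X ≤ C₀ * p := by
      calc Real.log X ≤ Real.log (Real.exp (C₀ * p)) := Real.log_le_log hXpos hXexp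
        _ = C₀ * p := Real.log_exp _
    have hlogX0 : 0 < Real.log X := by
      refine Real.log_pos ?_
      have : 2 ≤ X := by omega
      have : (2 : ℝ) ≤ X := by exact_mod_cast this
      linarith
    calc η * ((H : ℝ) / (4 * s)) / (C₀ * p) ≤ η * Y / Real.log X := by gcongr
      _ ≤ (((Ioc X (X + Y)).filter Nat.Prime).card : ℝ) := hmain
      _ ≤ (((Ioc ((A - 1) / s) ((A + H - 1) / s)).filter (fun q => q.Prime ∧ p < q)).card : ℝ) := by
          have hsub2 : (Ioc X (X + Y)).filter Nat.Prime ⊆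
              (Ioc ((A - 1) / s) ((A + H - 1) / s)).filter (fun q => q.Prime ∧ p < q) := by
            intro q hq
            rw [mem_filter, mem_Ioc] at hq
            obtain ⟨⟨hq1, hq2⟩, hqp⟩ := hq
            rw [mem_filter, mem_Ioc]
            refine ⟨⟨lt_of_le_of_lt (Nat.div_le_div_right (by omega)) hq1, hq2.trans ?_⟩, hqp, by omega⟩
            rw [Nat.le_div_iff_mul_le hs1, add_mul]
            have h4 : A / s * s ≤ A := Nat.div_mul_le_self A s
            have h5 : H / (2 * s) * (2 * s) ≤ H := Nat.div_mul_le_self H (2 * s)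
            have h6 : 2 * (Y * s) ≤ H := by
              calc 2 * (Y * s) = Y * (2 * s) := by ring
                _ ≤ H := h5
            have h7 : X * s ≤ A := h4
            omega
          exact_mod_cast Finset.card_le_card hsub2
      _ = _ := by rw [Finset.sum_const, nsmul_eq_mul, mul_one]
  have hharm : Real.log p ≤ ∑ s ∈ Icc 1 p, (s : ℝ)⁻¹ := by
    have h1 := log_add_one_le_harmonic p
    have h2 : Real.log p ≤ Real.log ((p : ℝ) + 1) := Real.log_le_log hp0 (by linarith)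
    rw [harmonic_eq_sum_Icc] at h1
    push_cast at h1
    exact h2.trans h1
  calc η / (4 * C₀) * (Real.log p / p) * (H : ℝ)
      ≤ η / (4 * C₀) * ((∑ s ∈ Icc 1 p, (s : ℝ)⁻¹) / p) * (H : ℝ) := by gcongr
    _ = ∑ s ∈ Icc 1 p, η * ((H : ℝ) / (4 * s)) / (C₀ * p) := by
        rw [Finset.sum_div, Finset.mul_sum, Finset.sum_mul]
        refine Finset.sum_congr rfl fun s hs => ?_
        rw [mem_Icc] at hs
        have hs0 : (0 : ℝ) < s := by exact_mod_cast hs.1
        field_simp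
    _ ≤ ∑ s ∈ Icc 1 p, ∑ q ∈ (Ioc ((A - 1) / s) ((A + H - 1) / s)).filter
          (fun q => q.Prime ∧ p < q), (1 : ℝ) := Finset.sum_le_sum hstep
    _ ≤ _ := Finset.sum_le_sum_of_subset_of_nonneg hsub fun s _ _ => by positivity

end Pool.Agent.T9h55.PF
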