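import Pool.Agent.T9h55.PF.G
import Pool.Agent.T9h55.PF.Lo

/-! One and two exponents in a cell (helper55; after `Pool.Agent.N176.GP.Pair`). -/

set_option autoImplicit false

namespace Pool.Agent.T9h55.PF

open Finset Filter Topology
open Pool.Agent.H305R2 (roughPart roughPart_prime roughPart_mul SM SM_pos SMz mem_SMz VV ZZ VV_nonneg
  ZZ_nonneg ZZ_le_exp VV_tendsto sum_le_VV sum_rough_eq log_nat_tendsto)
open Pool.Agent.W66 (large_smooth_count)
open Pool.Agent.N176.GP (XX XX_nonneg XX_sq sum_cells sum_div grow)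

/-- the data: a sequence `a` and numbers of digits `k` -/
structure Dat (δ : ℝ) (a k : ℕ → ℕ) (c₁ : ℝ) (c₂ N₀ : ℕ) : Prop where
  c₁_pos : 0 < c₁
  c₂_pos : 1 ≤ c₂
  lo : ∀ p ≥ N₀, p.Prime → c₁ * p ≤ k p
  hi : ∀ p ≥ N₀, p.Prime → k p ≤ c₂ * p
  mono : ∀ p ≥ N₀, ∀ q > p, p.Prime → q.Prime → k p < k q
  alo : ∀ p ≥ N₀, p.Prime → 2 ^ k p ≤ a p
  ahi : ∀ p ≥ N₀, p.Prime → (a p : ℝ) ≤ (2 : ℝ) ^ ((1 + δ) * k p)

open Classical in
/-- indicator of prime rough part, small smooth part -/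
noncomputable def OO (p : ℕ) (S : ℝ) (n : ℕ) : ℝ := if Okv p S n then 1 else 0

open Classical in
/-- indicator of prime rough part, large smooth part -/
noncomputable def RR (p : ℕ) (S : ℝ) (n : ℕ) : ℝ :=
  if (roughPart p n).Prime ∧ S ≤ ((n / roughPart p n : ℕ) : ℝ) then 1 else 0

lemma OO_nonneg (p : ℕ) (S : ℝ) (n : ℕ) : 0 ≤ OO p S n := by unfold OO; split_ifs <;> norm_num

lemma RR_nonneg (p : ℕ) (S : ℝ) (n : ℕ) : 0 ≤ RR p S n := by unfold RR; split_ifs <;> norm_num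

lemma XX_le_one (p n : ℕ) : XX p n ≤ 1 := by unfold XX; split_ifs <;> norm_num

lemma XX_le (p : ℕ) (S : ℝ) (n : ℕ) : XX p n ≤ OO p S n + RR p S n := by
  classical
  by_cases h : (roughPart p n).Prime
  · rcases lt_or_ge ((n / roughPart p n : ℕ) : ℝ) S with h1 | h1
    · have : OO p S n = 1 := by
        unfold OO
        rw [if_pos ⟨h, h1⟩]
      rw [this]
      linarith [XX_le_one p n, RR_nonneg p S n]
    · have : RR p S n = 1 := by
        unfold RR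
        rw [if_pos ⟨h, h1⟩]
      rw [this]
      linarith [XX_le_one p n, OO_nonneg p S n]
  · unfold XX
    rw [if_neg h]
    linarith [RR_nonneg p S n, OO_nonneg p S n]

lemma XXXX_le (p q : ℕ) (S S' : ℝ) (u v : ℕ) :
    XX p u * XX q v ≤ OO p S u * OO q S' v + RR p S u + RR q S' v := by
  classical
  have a1 := XX_nonneg p u
  have a2 := XX_nonneg q v
  have a3 := XX_le_one p u
  have a4 := XX_le_one q v
  have b1 := OO_nonneg p S u
  have b2 := OO_nonneg q S' v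
  have b3 := RR_nonneg p S u
  have b4 := RR_nonneg q S' v
  by_cases h : (roughPart p u).Prime
  · by_cases h' : (roughPart q v).Prime
    · rcases lt_or_ge ((u / roughPart p u : ℕ) : ℝ) S with h1 | h1
      · rcases lt_or_ge ((v / roughPart q v : ℕ) : ℝ) S' with h2 | h2
        · have e1 : OO p S u = 1 := by
            unfold OO
            rw [if_pos ⟨h, h1⟩]
          have e2 : OO q S' v = 1 := by
            unfold OO
            rw [if_pos ⟨h', h2⟩]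
          rw [e1, e2]
          nlinarith
        · have e2 : RR q S' v = 1 := by
            unfold RR
            rw [if_pos ⟨h', h2⟩]
          rw [e2]
          nlinarith
      · have e1 : RR p S u = 1 := by
          unfold RR
          rw [if_pos ⟨h, h1⟩]
        rw [e1]
        nlinarith
    · have : XX q v = 0 := by
        unfold XX
        rw [if_neg h']
      rw [this]
      nlinarith
  · have : XX p u = 0 := by
      unfold XX
      rw [if_neg h]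
    rw [this]
    nlinarith

/-- sizes -/
lemma facts {δ : ℝ} {a k z j : ℕ} (hδ : 0 < δ) (hδ1 : δ ≤ 1) (alo : 2 ^ k ≤ a)
    (ahi : (a : ℝ) ≤ (2 : ℝ) ^ ((1 + δ) * k)) (hk : 1 ≤ δ * k) (hz : (z : ℝ) ≤ δ * k) (hj : j < 2 ^ z) :
    z ≤ k ∧ 2 ^ k ≤ a + j * 2 ^ (k - z) ∧ 2 ^ (k - z) ≤ a + j * 2 ^ (k - z) ∧
    ((a + (j + 1) * 2 ^ (k - z) : ℕ) : ℝ) ≤ (2 : ℝ) ^ ((1 + 2 * δ) * k) ∧
    (2 : ℝ) ^ ((1 - δ) * k) ≤ (2 : ℝ) ^ (k - z) := by
  have hk0 : (0 : ℝ) ≤ k := Nat.cast_nonneg k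
  have hzk : z ≤ k := by
    have : (z : ℝ) ≤ k := hz.trans (by nlinarith)
    exact_mod_cast this
  have h1 : 2 ^ (k - z) ≤ 2 ^ k := Nat.pow_le_pow_right (by norm_num) (Nat.sub_le _ _)
  refine ⟨hzk, by omega, by omega, ?_, ?_⟩
  · have h2 : (j + 1) * 2 ^ (k - z) ≤ 2 ^ k := by
      calc (j + 1) * 2 ^ (k - z) ≤ 2 ^ z * 2 ^ (k - z) := Nat.mul_le_mul_right _ hj
        _ = 2 ^ k := by rw [← pow_add]; congr 1; omega
    have h3 : (((j + 1) * 2 ^ (k - z) : ℕ) : ℝ) ≤ (2 : ℝ) ^ ((1 + δ) * k) := by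
      have h4 : (((j + 1) * 2 ^ (k - z) : ℕ) : ℝ) ≤ ((2 ^ k : ℕ) : ℝ) := by exact_mod_cast h2
      refine h4.trans ?_
      push_cast
      rw [← Real.rpow_natCast]
      exact Real.rpow_le_rpow_of_exponent_le (by norm_num) (by nlinarith)
    have h5 : (2 : ℝ) ^ ((1 + 2 * δ) * k) = (2 : ℝ) ^ ((1 + δ) * k) * (2 : ℝ) ^ (δ * k) := by
      rw [← Real.rpow_add (by norm_num)]
      ring_nf
    have h6 : (2 : ℝ) ≤ (2 : ℝ) ^ (δ * k) := by
      calc (2 : ℝ) = (2 : ℝ) ^ (1 : ℝ) := by norm_num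
        _ ≤ _ := Real.rpow_le_rpow_of_exponent_le (by norm_num) hk
    have h7 : (0 : ℝ) ≤ (2 : ℝ) ^ ((1 + δ) * k) := by positivity
    rw [h5]
    push_cast at h3 ⊢
    nlinarith
  · rw [← Real.rpow_natCast 2 (k - z)]
    refine Real.rpow_le_rpow_of_exponent_le (by norm_num) ?_
    rw [Nat.cast_sub hzk]
    linarith

/-- the large smooth parts are rare -/
lemma rare (c₁ : ℝ) (hc₁ : 0 < c₁) : ∃ P : ℕ, ∀ x ≥ P, ∀ δ : ℝ, 0 < δ → δ ≤ 1 / 64 → ∀ p k A H : ℕ, x < p →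
    c₁ * p ≤ k → 1 ≤ A → ((A + H : ℕ) : ℝ) ≤ (2 : ℝ) ^ ((1 + 2 * δ) * k) → (2 : ℝ) ^ ((1 - δ) * k) ≤ H →
    ∑ n ∈ Ico A (A + H), RR p ((2 : ℝ) ^ ((k : ℝ) / 2)) n ≤ (Real.log x / x) ^ 2 * H := by
  classical
  obtain ⟨P, hP⟩ := ((ZZ_le_exp (c := c₁ / 16) (by positivity)).and
    (grow (c₁ / 16) 1 (by positivity))).exists_forall_of_atTop
  refine ⟨max P 3, fun x hx δ hδ hδ1 p k A H hxp hk hA hAH hH => ?_⟩
  obtain ⟨h1, h2⟩ := hP p (by have := (le_max_left P 3).trans hx; omega)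
  have hx3 : 3 ≤ x := (le_max_right _ _).trans hx
  have hx3r : (3 : ℝ) ≤ x := by exact_mod_cast hx3
  have hxp' : (x : ℝ) ≤ p := by exact_mod_cast hxp.le
  have hp0 : (0 : ℝ) < p := by linarith
  have hlx : 1 ≤ Real.log x := by
    rw [Real.le_log_iff_exp_le (by linarith)]
    linarith [Real.exp_one_lt_d9]
  set S : ℝ := (2 : ℝ) ^ ((k : ℝ) / 2) with hS
  have hS0 : 0 < S := by positivity
  have hk0 : (0 : ℝ) ≤ k := Nat.cast_nonneg k
  have h3 : ∑ n ∈ Ico A (A + H), RR p S n ≤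
      (((Icc 1 (A + H)).filter (fun m => (roughPart p m).Prime ∧
      S ≤ ((m / roughPart p m : ℕ) : ℝ))).card : ℝ) := by
    unfold RR
    rw [← Finset.sum_filter, Finset.sum_const, nsmul_eq_mul, mul_one]
    have hsub : (Ico A (A + H)).filter (fun m => (roughPart p m).Prime ∧
      S ≤ ((m / roughPart p m : ℕ) : ℝ)) ⊆ (Icc 1 (A + H)).filter (fun m => (roughPart p m).Prime ∧
      S ≤ ((m / roughPart p m : ℕ) : ℝ)) := by
      intro n hn
      rw [mem_filter, mem_Ico] at hn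
      rw [mem_filter, mem_Icc]
      exact ⟨by omega, hn.2⟩
    exact_mod_cast Finset.card_le_card hsub
  refine (h3.trans (large_smooth_count p (A + H) hS0)).trans ?_
  have hZ0 := ZZ_nonneg p
  have hSS : S ^ (-(1 / 2) : ℝ) = (2 : ℝ) ^ (-(k : ℝ) / 4) := by
    rw [hS, ← Real.rpow_mul (by norm_num)]
    congr 1
    ring
  have hl2 := Real.log_two_gt_d9
  have key : (2 : ℝ) ^ ((1 + 2 * δ) * k) * ((2 : ℝ) ^ (-(k : ℝ) / 4) * Real.exp (c₁ / 16 * p)) ≤
      Real.exp (-(c₁ / 16 * p)) * (2 : ℝ) ^ ((1 - δ) * k) := by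
    rw [Real.rpow_def_of_pos (by norm_num), Real.rpow_def_of_pos (by norm_num),
      Real.rpow_def_of_pos (by norm_num), ← Real.exp_add, ← Real.exp_add, ← Real.exp_add, Real.exp_le_exp]
    have e1 : Real.log 2 * ((1 - δ) * k) = Real.log 2 * ((1 + 2 * δ) * k) - Real.log 2 * (3 * δ * k) := by ring
    rw [e1]
    have e2 : Real.log 2 * (3 * δ * k) ≤ Real.log 2 * (3 / 64 * k) := by
      refine mul_le_mul_of_nonneg_left ?_ (by linarith)
      refine mul_le_mul_of_nonneg_right (by linarith) hk0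
    have e3 : 1 / 8 * (c₁ * p) ≤ Real.log 2 * (13 / 64 * k) := by
      calc 1 / 8 * (c₁ * p) ≤ 1 / 8 * k := by gcongr
        _ ≤ _ := by nlinarith
    nlinarith
  have hx0 : (0 : ℝ) < x := by linarith
  have hdec : Real.exp (-(c₁ / 16 * p)) ≤ (Real.log x / x) ^ 2 := by
    rw [Real.exp_neg]
    calc (Real.exp (c₁ / 16 * p))⁻¹ ≤ (1 * (p : ℝ) ^ 2)⁻¹ := inv_anti₀ (by positivity) h2
      _ = (1 / p) ^ 2 := by rw [one_mul]; simp
      _ ≤ (Real.log x / x) ^ 2 := by gcongr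
  calc ((A + H : ℕ) : ℝ) * (S ^ (-(1 / 2) : ℝ) * ZZ p) ≤
        (2 : ℝ) ^ ((1 + 2 * δ) * k) * ((2 : ℝ) ^ (-(k : ℝ) / 4) * Real.exp (c₁ / 16 * p)) := by
        rw [hSS]
        gcongr
    _ ≤ Real.exp (-(c₁ / 16 * p)) * (2 : ℝ) ^ ((1 - δ) * k) := key
    _ ≤ (Real.log x / x) ^ 2 * H := by gcongr

end Pool.Agent.T9h55.PF
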