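import Pool.Agent.T9h55.PF.Cell

/-! One and two exponents in a cell: the bounds (helper55). -/

set_option autoImplicit false

namespace Pool.Agent.T9h55.PF

open Finset Filter Topology
open Pool.Agent.H305R2 (roughPart roughPart_prime roughPart_mul SM SM_pos SMz mem_SMz VV ZZ VV_nonneg
  ZZ_nonneg ZZ_le_exp VV_tendsto sum_le_VV sum_rough_eq log_nat_tendsto)
open Pool.Agent.N176.GP (XX XX_nonneg XX_sq sum_cells sum_div grow)

lemma sqrt_sq (k : ℕ) : ((2 : ℝ) ^ ((k : ℝ) / 2)) ^ 2 = (2 : ℝ) ^ k := by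
  rw [← Real.rpow_natCast, ← Real.rpow_mul (by norm_num), ← Real.rpow_natCast]
  congr 1
  push_cast
  ring

/-- one form -/
lemma oo_one (c₁ : ℝ) (c₂ : ℕ) (hc₁ : 0 < c₁) : ∃ C : ℝ, 1 ≤ C ∧ ∃ P : ℕ, ∀ x ≥ P, ∀ δ : ℝ, 0 < δ → δ ≤ 1 / 64 →
    ∀ p k A E : ℕ, x < p → p ≤ 2 * x → c₁ * p ≤ k → (k : ℝ) ≤ c₂ * p → 2 ^ k ≤ A → 2 ^ E ≤ A →
    (A : ℝ) ≤ (2 : ℝ) ^ ((1 + 2 * δ) * k) → (1 - δ) * k ≤ E →
    ∑ m ∈ range (2 ^ E), OO p ((2 : ℝ) ^ ((k : ℝ) / 2)) (m + A) ≤ C * (Real.log x / x) * (2 : ℝ) ^ E := by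
  classical
  obtain ⟨C, hC, P, hP⟩ := sieveF (c₁ / 2) (6 * c₂) (by positivity) (by positivity)
  refine ⟨C, hC, P, fun x hx δ hδ hδ1 p k A E hxp hpx hk1 hk2 hA1 hA2 hA3 hE => ?_⟩
  have hxp' : (x : ℝ) ≤ p := by exact_mod_cast hxp.le
  have hpx' : (p : ℝ) ≤ 2 * x := by exact_mod_cast hpx
  have hk0 : (0 : ℝ) ≤ k := Nat.cast_nonneg k
  have hx0 : (0 : ℝ) ≤ x := Nat.cast_nonneg x
  have hc20 : (0 : ℝ) ≤ c₂ := Nat.cast_nonneg c₂
  have hkx : (k : ℝ) ≤ 2 * c₂ * x := by nlinarith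
  have h := hP x hx {0} (fun _ => p) (fun _ => 0) (fun _ => A) (fun _ => (2 : ℝ) ^ ((k : ℝ) / 2)) E
    (by simp) (by simp) (by simp; omega)
    (by
      have : c₁ / 2 * x ≤ (1 - δ) * k := by nlinarith
      linarith)
    (by
      intro i _
      refine ⟨by exact_mod_cast hA2, ?_, by positivity, ?_, ?_⟩
      · rw [sqrt_sq]
        exact_mod_cast hA1
      · rw [pow_zero, one_mul]
        refine hA3.trans (Real.rpow_le_rpow_of_exponent_le (by norm_num) ?_)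
        nlinarith
      · rw [pow_zero]
        exact Real.one_le_rpow (by norm_num) (by positivity))
    (by simp)
  simp only [Finset.card_singleton, pow_one, Finset.mem_singleton, forall_eq, pow_zero, one_mul] at h
  unfold OO
  rw [← Finset.sum_filter, Finset.sum_const, nsmul_eq_mul, mul_one]
  exact h

/-- two forms -/
lemma oo_two (c₁ : ℝ) (c₂ : ℕ) (hc₁ : 0 < c₁) : ∃ C : ℝ, 1 ≤ C ∧ ∃ P : ℕ, ∀ x ≥ P, ∀ δ : ℝ, 0 < δ → δ ≤ 1 / 64 →
    ∀ p k A q k' A' h E : ℕ, x < p → p ≤ 2 * x → x < q → q ≤ 2 * x → c₁ * p ≤ k → (k : ℝ) ≤ c₂ * p →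
    (k' : ℝ) ≤ c₂ * q → h ≤ k' → 2 ^ k ≤ A → 2 ^ E ≤ A → 2 ^ k' ≤ A' → 2 ^ E ≤ A' →
    (A : ℝ) ≤ (2 : ℝ) ^ ((1 + 2 * δ) * k) → (A' : ℝ) ≤ (2 : ℝ) ^ ((1 + 2 * δ) * k') → (1 - δ) * k ≤ E →
    A' ≠ 2 ^ h * A →
    ∑ m ∈ range (2 ^ E), OO p ((2 : ℝ) ^ ((k : ℝ) / 2)) (m + A) *
      OO q ((2 : ℝ) ^ ((k' : ℝ) / 2)) (2 ^ h * m + A') ≤ (C * (Real.log x / x)) ^ 2 * (2 : ℝ) ^ E := by
  classical
  obtain ⟨C, hC, P, hP⟩ := sieveF (c₁ / 2) (6 * c₂) (by positivity) (by positivity)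
  refine ⟨C, hC, P, fun x hx δ hδ hδ1 p k A q k' A' h E hxp hpx hxq hqx hk1 hk2 hk'2 hh hA1 hA2 hA1' hA2'
    hA3 hA3' hE hne => ?_⟩
  have hxp' : (x : ℝ) ≤ p := by exact_mod_cast hxp.le
  have hpx' : (p : ℝ) ≤ 2 * x := by exact_mod_cast hpx
  have hqx' : (q : ℝ) ≤ 2 * x := by exact_mod_cast hqx
  have hk0 : (0 : ℝ) ≤ k := Nat.cast_nonneg k
  have hk'0 : (0 : ℝ) ≤ k' := Nat.cast_nonneg k'
  have hx0 : (0 : ℝ) ≤ x := Nat.cast_nonneg x
  have hc20 : (0 : ℝ) ≤ c₂ := Nat.cast_nonneg c₂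
  have hkx : (k : ℝ) ≤ 2 * c₂ * x := by nlinarith
  have hk'x : (k' : ℝ) ≤ 2 * c₂ * x := by nlinarith
  have hhx : (h : ℝ) ≤ 2 * c₂ * x := by
    have : (h : ℝ) ≤ k' := by exact_mod_cast hh
    linarith
  have hcx : 0 ≤ c₂ * (x : ℝ) := by positivity
  have h2 := hP x hx {0, 1} (fun i => if i = 0 then p else q) (fun i => if i = 0 then 0 else h)
    (fun i => if i = 0 then A else A')
    (fun i => if i = 0 then (2 : ℝ) ^ ((k : ℝ) / 2) else (2 : ℝ) ^ ((k' : ℝ) / 2)) E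
    (by simp) (by simp) (by simp; omega)
    (by
      have : c₁ / 2 * x ≤ (1 - δ) * k := by nlinarith
      linarith)
    (by
      intro i hi
      rw [Finset.mem_insert, Finset.mem_singleton] at hi
      rcases hi with rfl | rfl
      · simp only [if_true]
        refine ⟨by exact_mod_cast hA2, ?_, by positivity, ?_, ?_⟩
        · rw [sqrt_sq]
          exact_mod_cast hA1
        · rw [pow_zero, one_mul]
          refine hA3.trans (Real.rpow_le_rpow_of_exponent_le (by norm_num) ?_)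
          nlinarith
        · rw [pow_zero]
          exact Real.one_le_rpow (by norm_num) (by positivity)
      · simp only [one_ne_zero, if_false]
        refine ⟨by exact_mod_cast hA2', ?_, by positivity, ?_, ?_⟩
        · rw [sqrt_sq]
          exact_mod_cast hA1'
        · have e : (2 : ℝ) ^ h * (A' : ℝ) ≤ (2 : ℝ) ^ (2 * c₂ * (x : ℝ)) * (2 : ℝ) ^ (4 * c₂ * (x : ℝ)) := by
            refine mul_le_mul ?_ ?_ (Nat.cast_nonneg _) (by positivity)
            · rw [← Real.rpow_natCast]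
              exact Real.rpow_le_rpow_of_exponent_le (by norm_num) hhx
            · refine hA3'.trans (Real.rpow_le_rpow_of_exponent_le (by norm_num) ?_)
              nlinarith
          refine e.trans (le_of_eq ?_)
          rw [← Real.rpow_add (by norm_num)]
          congr 1
          ring
        · rw [← Real.rpow_natCast]
          refine Real.rpow_le_rpow_of_exponent_le (by norm_num) ?_
          nlinarith)
    (by
      intro i hi j hj hij
      rw [Finset.mem_insert, Finset.mem_singleton] at hi hj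
      rcases hi with rfl | rfl
      · rcases hj with rfl | rfl
        · omega
        · simpa using hne
      · rcases hj with rfl | rfl <;> omega)
  have h3 : #({0, 1} : Finset ℕ) = 2 := rfl
  rw [h3] at h2
  have h4 : ∀ m, OO p ((2 : ℝ) ^ ((k : ℝ) / 2)) (m + A) *
      OO q ((2 : ℝ) ^ ((k' : ℝ) / 2)) (2 ^ h * m + A') = if (∀ i ∈ ({0, 1} : Finset ℕ),
        Okv (if i = 0 then p else q) (if i = 0 then (2 : ℝ) ^ ((k : ℝ) / 2) else (2 : ℝ) ^ ((k' : ℝ) / 2))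
        (2 ^ (if i = 0 then 0 else h) * m + if i = 0 then A else A')) then (1 : ℝ) else 0 := by
    intro m
    unfold OO
    simp only [Finset.mem_insert, Finset.mem_singleton, forall_eq_or_imp, forall_eq, if_true, one_ne_zero, if_false,
      pow_zero, one_mul]
    by_cases h5 : Okv p ((2 : ℝ) ^ ((k : ℝ) / 2)) (m + A)
    · by_cases h6 : Okv q ((2 : ℝ) ^ ((k' : ℝ) / 2)) (2 ^ h * m + A')
      · simp [h5, h6]
      · simp [h6]
    · simp [h5]
  rw [Finset.sum_congr rfl fun m _ => h4 m, ← Finset.sum_filter, Finset.sum_const, nsmul_eq_mul, mul_one]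
  exact h2

end Pool.Agent.T9h55.PF
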