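import Pool.Agent.T9h55.PF.Cell2

/-! One and two exponents in a cell (helper55). -/

set_option autoImplicit false

namespace Pool.Agent.T9h55.PF

open Finset Filter Topology
open Pool.Agent.H305R2 (roughPart roughPart_prime roughPart_mul SM SM_pos SMz mem_SMz VV ZZ VV_nonneg
  ZZ_nonneg ZZ_le_exp VV_tendsto sum_le_VV sum_rough_eq log_nat_tendsto)
open Pool.Agent.N176.GP (XX XX_nonneg XX_sq sum_cells sum_div grow)

lemma shift (f : ℕ → ℝ) (A j H : ℕ) : ∑ n ∈ Ico (j * H) ((j + 1) * H), f (A + n) =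
    ∑ n ∈ Ico (A + j * H) (A + j * H + H), f n := by
  rw [Finset.sum_Ico_add]
  congr 1
  rw [show j * H + A = A + j * H by ring, show (j + 1) * H + A = A + j * H + H by ring]

lemma shift2 (f : ℕ → ℝ) (A j H : ℕ) : ∑ n ∈ Ico (j * H) ((j + 1) * H), f (A + n) =
    ∑ m ∈ range H, f (m + (A + j * H)) := by
  rw [Finset.sum_Ico_eq_sum_range]
  have e : (j + 1) * H - j * H = H := by rw [add_mul, one_mul]; omega
  rw [e]
  refine Finset.sum_congr rfl fun m _ => ?_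
  congr 1
  ring

lemma cell_one : ∃ δ₀ : ℝ, 0 < δ₀ ∧ δ₀ ≤ 1 / 64 ∧ ∀ (δ c₁ : ℝ) (c₂ : ℕ), 0 < δ → δ ≤ δ₀ → 0 < c₁ → 1 ≤ c₂ →
    ∃ c C : ℝ, 0 < c ∧ 0 < C ∧ ∀ (a k : ℕ → ℕ) (N₀ : ℕ), Dat δ a k c₁ c₂ N₀ →
    ∃ P : ℕ, ∀ x ≥ P, ∀ p, p.Prime → x < p → p ≤ 2 * x →
    ∀ z : ℕ, (z : ℝ) ≤ δ * k p → ∀ j < 2 ^ z,
      c * (Real.log x / x) * (2 : ℝ) ^ (k p - z) ≤
        ∑ n ∈ Ico (j * 2 ^ (k p - z)) ((j + 1) * 2 ^ (k p - z)), XX p (a p + n) ∧
      ∑ n ∈ Ico (j * 2 ^ (k p - z)) ((j + 1) * 2 ^ (k p - z)), XX p (a p + n) ≤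
        C * (Real.log x / x) * (2 : ℝ) ^ (k p - z) := by
  classical
  obtain ⟨δ₁, hδ₁, hδ₁1, hlow⟩ := low
  refine ⟨min (δ₁ / 4) (1 / 64), by positivity, min_le_right _ _, fun δ c₁ c₂ hδ hδ0 hc₁ hc₂n => ?_⟩
  have hδa : δ ≤ δ₁ / 4 := hδ0.trans (min_le_left _ _)
  have hδb : δ ≤ 1 / 64 := hδ0.trans (min_le_right _ _)
  have hc₂ : (1 : ℝ) ≤ c₂ := by exact_mod_cast hc₂n
  obtain ⟨c, hc, P1, h1⟩ := hlow (c₁ / 4) (2 * c₂) (by positivity) (by positivity)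
  obtain ⟨C, hC, P2, h2⟩ := oo_one c₁ c₂ hc₁
  obtain ⟨P3, h3⟩ := rare c₁ hc₁
  refine ⟨c / 2, C + 1, by positivity, by positivity, fun a k N₀ D =>
    ⟨max (max P1 P2) (max (max P3 N₀) (max 3 ⌈1 / (δ * c₁)⌉₊)), fun x hx p hp hxp hpx z hz j hj => ?_⟩⟩
  have hxP1 : P1 ≤ x := ((le_max_left _ _).trans (le_max_left _ _)).trans hx
  have hxP2 : P2 ≤ x := ((le_max_right _ _).trans (le_max_left _ _)).trans hx
  have hxP3 : P3 ≤ x := (((le_max_left _ _).trans (le_max_left _ _)).trans (le_max_right _ _)).trans hx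
  have hxN : N₀ ≤ x := (((le_max_right _ _).trans (le_max_left _ _)).trans (le_max_right _ _)).trans hx
  have hx3 : 3 ≤ x := (((le_max_left _ _).trans (le_max_right _ _)).trans (le_max_right _ _)).trans hx
  have hxc : ⌈1 / (δ * c₁)⌉₊ ≤ x :=
    (((le_max_right _ _).trans (le_max_right _ _)).trans (le_max_right _ _)).trans hx
  have hx3r : (3 : ℝ) ≤ x := by exact_mod_cast hx3
  have hx0 : (0 : ℝ) < x := by linarith
  have hxp' : (x : ℝ) ≤ p := by exact_mod_cast hxp.le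
  have hpx' : (p : ℝ) ≤ 2 * x := by exact_mod_cast hpx
  have hp0 : (0 : ℝ) < p := by linarith
  have hpN : p ≥ N₀ := by omega
  have d1 := D.lo p hpN hp
  have d2 := D.hi p hpN hp
  have d2' : (k p : ℝ) ≤ c₂ * p := by exact_mod_cast d2
  have d3 := D.alo p hpN hp
  have d4 := D.ahi p hpN hp
  have hk0 : (0 : ℝ) ≤ k p := Nat.cast_nonneg _
  have hdk : 1 ≤ δ * k p := by
    have e1 : 1 / (δ * c₁) ≤ x := (Nat.le_ceil _).trans (by exact_mod_cast hxc)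
    rw [div_le_iff₀ (by positivity)] at e1
    calc (1 : ℝ) ≤ x * (δ * c₁) := e1
      _ ≤ p * (δ * c₁) := by gcongr
      _ = δ * (c₁ * p) := by ring
      _ ≤ δ * k p := by gcongr
  obtain ⟨f1, f2, f3, f4, f5⟩ := facts hδ (by linarith) d3 d4 hdk hz hj
  obtain ⟨E, hE⟩ : ∃ E, E = k p - z := ⟨_, rfl⟩
  rw [← hE] at f2 f3 f4 f5 ⊢
  obtain ⟨A, hA⟩ : ∃ A, A = a p + j * 2 ^ E := ⟨_, rfl⟩
  rw [← hA] at f2 f3
  have hAH : A + 2 ^ E = a p + (j + 1) * 2 ^ E := by rw [hA]; ring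
  rw [← hAH] at f4
  have hEr : (1 - δ) * (k p : ℝ) ≤ E := by
    rw [hE, Nat.cast_sub f1]
    linarith
  have hH : ((2 ^ E : ℕ) : ℝ) = (2 : ℝ) ^ E := by push_cast; rfl
  have hlx1 : 1 ≤ Real.log x := by
    rw [Real.le_log_iff_exp_le hx0]
    linarith [Real.exp_one_lt_d9]
  have hL1 : Real.log x / x ≤ 1 := by
    rw [div_le_one hx0]
    exact (Real.log_le_sub_one_of_pos hx0).trans (by linarith)
  have hL0 : 0 < Real.log x / x := by positivity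
  have hlo2 := Real.log_two_gt_d9
  have hlo2' := Real.log_two_lt_d9
  have hAle : (A : ℝ) ≤ (2 : ℝ) ^ ((1 + 2 * δ) * k p) := by
    refine le_trans ?_ f4
    exact_mod_cast Nat.le_add_right _ _
  rw [shift]
  rw [← hA]
  constructor
  · have g1 := h1 p (by omega) A (2 ^ E) f3
      (by
        rw [hH]
        refine le_trans ?_ f5
        rw [Real.rpow_def_of_pos (by norm_num), Real.exp_le_exp]
        have e1 : 1 / 2 * (k p : ℝ) ≤ (1 - δ) * k p := by nlinarith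
        nlinarith)
      (by
        refine hAle.trans ?_
        rw [Real.rpow_def_of_pos (by norm_num), Real.exp_le_exp]
        have e1 : (1 + 2 * δ) * (k p : ℝ) ≤ 2 * (c₂ * p) := by nlinarith
        have e2 : 0 ≤ (1 + 2 * δ) * (k p : ℝ) := by positivity
        nlinarith)
      (by
        rw [hH]
        refine le_trans ?_ f5
        calc (A : ℝ) ^ (1 - δ₁) ≤ ((2 : ℝ) ^ ((1 + 2 * δ) * k p)) ^ (1 - δ₁) :=
              Real.rpow_le_rpow (Nat.cast_nonneg _) hAle (by linarith)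
          _ = (2 : ℝ) ^ ((1 + 2 * δ) * k p * (1 - δ₁)) := by rw [← Real.rpow_mul (by norm_num)]
          _ ≤ _ := by
              refine Real.rpow_le_rpow_of_exponent_le (by norm_num) ?_
              have e1 : (1 + 2 * δ) * (1 - δ₁) ≤ 1 - δ := by nlinarith
              nlinarith)
    rw [hH] at g1
    have e1 : ∑ n ∈ Ico A (A + 2 ^ E), XX p n = #((Ico A (A + 2 ^ E)).filter (fun n => (roughPart p n).Prime)) := by
      unfold XX
      rw [← Finset.sum_filter, Finset.sum_const, nsmul_eq_mul, mul_one]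
    rw [e1]
    refine le_trans ?_ g1
    have e2 : Real.log x / x ≤ 2 * (Real.log p / p) := by
      have e3 : Real.log x ≤ Real.log p := Real.log_le_log hx0 hxp'
      rw [div_le_iff₀ hx0]
      have e4 : 2 * (Real.log p / p) * x = Real.log p * (2 * x / p) := by ring
      rw [e4]
      have e5 : 1 ≤ 2 * (x : ℝ) / p := by rwa [one_le_div hp0]
      nlinarith
    calc c / 2 * (Real.log x / x) * (2 : ℝ) ^ E ≤ c / 2 * (2 * (Real.log p / p)) * (2 : ℝ) ^ E := by gcongr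
      _ = _ := by ring
  · have g2 := h2 x hxP2 δ hδ hδb p (k p) A E hxp hpx d1 d2' f2 f3 hAle hEr
    have g3 := h3 x hxP3 δ hδ hδb p (k p) A (2 ^ E) hxp d1 (le_trans Nat.one_le_two_pow f2) f4
      (by rw [hH]; exact f5)
    rw [hH] at g3
    calc ∑ n ∈ Ico A (A + 2 ^ E), XX p n ≤
          ∑ n ∈ Ico A (A + 2 ^ E), (OO p ((2 : ℝ) ^ ((k p : ℝ) / 2)) n + RR p ((2 : ℝ) ^ ((k p : ℝ) / 2)) n) :=
          Finset.sum_le_sum fun n _ => XX_le _ _ _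
      _ = ∑ m ∈ range (2 ^ E), OO p ((2 : ℝ) ^ ((k p : ℝ) / 2)) (m + A) +
          ∑ n ∈ Ico A (A + 2 ^ E), RR p ((2 : ℝ) ^ ((k p : ℝ) / 2)) n := by
          rw [Finset.sum_add_distrib, Finset.sum_Ico_eq_sum_range]
          have e6 : A + 2 ^ E - A = 2 ^ E := Nat.add_sub_cancel_left _ _
          rw [e6]
          congr 1
          exact Finset.sum_congr rfl fun m _ => by rw [add_comm]
      _ ≤ C * (Real.log x / x) * (2 : ℝ) ^ E + (Real.log x / x) ^ 2 * (2 : ℝ) ^ E := add_le_add g2 g3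
      _ ≤ C * (Real.log x / x) * (2 : ℝ) ^ E + (Real.log x / x) * (2 : ℝ) ^ E := by
          gcongr
          nlinarith
      _ = _ := by ring

lemma cell_two (δ c₁ : ℝ) (c₂ : ℕ) (hδ : 0 < δ) (hδb : δ ≤ 1 / 64) (hc₁ : 0 < c₁) (hc₂n : 1 ≤ c₂)
    (C₁ : ℝ) (hC₁ : 0 < C₁) : ∃ C : ℝ, 0 < C ∧ ∀ (a k : ℕ → ℕ) (N₀ : ℕ), Dat δ a k c₁ c₂ N₀ → ∀ P₁ : ℕ,
    (∀ x ≥ P₁, ∀ p, p.Prime → x < p → p ≤ 2 * x → ∀ z : ℕ, (z : ℝ) ≤ δ * k p → ∀ j < 2 ^ z,
      ∑ n ∈ Ico (j * 2 ^ (k p - z)) ((j + 1) * 2 ^ (k p - z)), XX p (a p + n) ≤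
        C₁ * (Real.log x / x) * (2 : ℝ) ^ (k p - z)) →
    ∃ P : ℕ, ∀ x ≥ P, ∀ p q, p.Prime → q.Prime → x < p → p < q → q ≤ 2 * x →
    ∀ z : ℕ, (z : ℝ) ≤ δ * k p → ∀ j < 2 ^ z,
      ∑ n ∈ Ico (j * 2 ^ (k q - z)) ((j + 1) * 2 ^ (k q - z)), XX p (a p + n / 2 ^ (k q - k p)) * XX q (a q + n) ≤
        C * ((Real.log x / x) ^ 2 + ((2 : ℝ) ^ (k q - k p))⁻¹ * (Real.log x / x)) * (2 : ℝ) ^ (k q - z) := by
  classical
  have hc₂ : (1 : ℝ) ≤ c₂ := by exact_mod_cast hc₂n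
  obtain ⟨C, hC, P2, h2⟩ := oo_two c₁ c₂ hc₁
  obtain ⟨P3, h3⟩ := rare c₁ hc₁
  refine ⟨C₁ + (C ^ 2 + 2), by positivity, fun a k N₀ D P₁ hone =>
    ⟨max (max P₁ P2) (max (max P3 N₀) (max 3 ⌈1 / (δ * c₁)⌉₊)), fun x hx p q hp hq hxp hpq hqx z hz j hj => ?_⟩⟩
  have hxP1 : P₁ ≤ x := ((le_max_left _ _).trans (le_max_left _ _)).trans hx
  have hxP2 : P2 ≤ x := ((le_max_right _ _).trans (le_max_left _ _)).trans hx
  have hxP3 : P3 ≤ x := (((le_max_left _ _).trans (le_max_left _ _)).trans (le_max_right _ _)).trans hx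
  have hxN : N₀ ≤ x := (((le_max_right _ _).trans (le_max_left _ _)).trans (le_max_right _ _)).trans hx
  have hx3 : 3 ≤ x := (((le_max_left _ _).trans (le_max_right _ _)).trans (le_max_right _ _)).trans hx
  have hxc : ⌈1 / (δ * c₁)⌉₊ ≤ x :=
    (((le_max_right _ _).trans (le_max_right _ _)).trans (le_max_right _ _)).trans hx
  have hx3r : (3 : ℝ) ≤ x := by exact_mod_cast hx3
  have hx0 : (0 : ℝ) < x := by linarith
  have hxp' : (x : ℝ) ≤ p := by exact_mod_cast hxp.le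
  have hpq' : (p : ℝ) ≤ q := by exact_mod_cast hpq.le
  have hqx' : (q : ℝ) ≤ 2 * x := by exact_mod_cast hqx
  have hpN : p ≥ N₀ := by omega
  have hqN : q ≥ N₀ := by omega
  have d1 := D.lo p hpN hp
  have d1' := D.lo q hqN hq
  have d2' : (k p : ℝ) ≤ c₂ * p := by exact_mod_cast D.hi p hpN hp
  have d2q : (k q : ℝ) ≤ c₂ * q := by exact_mod_cast D.hi q hqN hq
  have d3 := D.alo p hpN hp
  have d4 := D.ahi p hpN hp
  have d3' := D.alo q hqN hq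
  have d4' := D.ahi q hqN hq
  have dm := D.mono p hpN q hpq hp hq
  have hk0 : (0 : ℝ) ≤ k p := Nat.cast_nonneg _
  have hkpq : (k p : ℝ) ≤ k q := by exact_mod_cast dm.le
  have hdk : 1 ≤ δ * k p := by
    have e1 : 1 / (δ * c₁) ≤ x := (Nat.le_ceil _).trans (by exact_mod_cast hxc)
    rw [div_le_iff₀ (by positivity)] at e1
    calc (1 : ℝ) ≤ x * (δ * c₁) := e1
      _ ≤ p * (δ * c₁) := by gcongr
      _ = δ * (c₁ * p) := by ring
      _ ≤ δ * k p := by gcongr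
  have hdkq : δ * k p ≤ δ * k q := by gcongr
  obtain ⟨f1, f2, f3, f4, f5⟩ := facts hδ (by linarith) d3 d4 hdk hz hj
  obtain ⟨g1, g2, g3, g4, g5⟩ := facts hδ (by linarith) d3' d4' (hdk.trans hdkq) (hz.trans hdkq) hj
  have hone' := hone x hxP1 p hp hxp (by omega) z hz j hj
  obtain ⟨E, hE⟩ : ∃ E, E = k p - z := ⟨_, rfl⟩
  obtain ⟨h, hh⟩ : ∃ h, h = k q - k p := ⟨_, rfl⟩
  have hEq : k q - z = E + h := by omega
  rw [← hE] at f2 f3 f4 f5 hone'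
  rw [hEq] at g2 g3 g4 g5 ⊢
  rw [← hh]
  obtain ⟨A, hA⟩ : ∃ A, A = a p + j * 2 ^ E := ⟨_, rfl⟩
  rw [← hA] at f2 f3
  have hAH : A + 2 ^ E = a p + (j + 1) * 2 ^ E := by rw [hA]; ring
  rw [← hAH] at f4
  have hEr : (1 - δ) * (k p : ℝ) ≤ E := by
    rw [hE, Nat.cast_sub f1]
    linarith
  have hH : ((2 ^ E : ℕ) : ℝ) = (2 : ℝ) ^ E := by push_cast; rfl
  have hB : ((2 ^ h : ℕ) : ℝ) = (2 : ℝ) ^ h := by push_cast; rfl
  have hlx1 : 1 ≤ Real.log x := by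
    rw [Real.le_log_iff_exp_le hx0]
    linarith [Real.exp_one_lt_d9]
  have hL0 : 0 < Real.log x / x := by positivity
  have hAle : (A : ℝ) ≤ (2 : ℝ) ^ ((1 + 2 * δ) * k p) := by
    refine le_trans ?_ f4
    exact_mod_cast Nat.le_add_right _ _
  set L := Real.log x / x with hL
  set S : ℝ := (2 : ℝ) ^ ((k p : ℝ) / 2) with hS
  set S' : ℝ := (2 : ℝ) ^ ((k q : ℝ) / 2) with hS'
  have hBpos : 0 < 2 ^ h := by positivity
  -- reorganise the sum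
  have hsplit : 2 ^ (E + h) = 2 ^ E * 2 ^ h := pow_add _ _ _
  rw [hsplit, ← mul_assoc, ← mul_assoc, sum_cells _ _ _ (Nat.mul_le_mul_right _ (Nat.le_succ j)), Finset.sum_comm]
  have inner : ∀ r ∈ range (2 ^ h), ∑ m ∈ Ico (j * 2 ^ E) ((j + 1) * 2 ^ E),
      XX p (a p + (m * 2 ^ h + r) / 2 ^ h) * XX q (a q + (m * 2 ^ h + r)) ≤
      ((if a q + r = 2 ^ h * a p then C₁ * L * (2 : ℝ) ^ E else 0) + (C * L) ^ 2 * (2 : ℝ) ^ E) +
      (L ^ 2 * (2 : ℝ) ^ E + ∑ m ∈ Ico (j * 2 ^ E) ((j + 1) * 2 ^ E), RR q S' (a q + (m * 2 ^ h + r))) := by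
    intro r hr
    rw [mem_range] at hr
    have e0 : ∀ m, (m * 2 ^ h + r) / 2 ^ h = m := by
      intro m
      rw [Nat.add_div_of_dvd_right (dvd_mul_left _ m), Nat.mul_div_cancel _ hBpos, Nat.div_eq_of_lt hr, add_zero]
    simp only [e0]
    have hRR : 0 ≤ ∑ m ∈ Ico (j * 2 ^ E) ((j + 1) * 2 ^ E), RR q S' (a q + (m * 2 ^ h + r)) :=
      Finset.sum_nonneg fun m _ => RR_nonneg _ _ _
    by_cases hdeg : a q + r = 2 ^ h * a p
    · rw [if_pos hdeg]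
      have e1 : ∑ m ∈ Ico (j * 2 ^ E) ((j + 1) * 2 ^ E), XX p (a p + m) * XX q (a q + (m * 2 ^ h + r)) ≤
          ∑ m ∈ Ico (j * 2 ^ E) ((j + 1) * 2 ^ E), XX p (a p + m) := by
        refine Finset.sum_le_sum fun m _ => ?_
        have := XX_le_one q (a q + (m * 2 ^ h + r))
        have h0 := XX_nonneg p (a p + m)
        nlinarith
      refine (e1.trans hone').trans ?_
      have : 0 ≤ (C * L) ^ 2 * (2 : ℝ) ^ E := by positivity
      have : 0 ≤ L ^ 2 * (2 : ℝ) ^ E := by positivity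
      linarith
    · rw [if_neg hdeg, zero_add]
      obtain ⟨A', hA'⟩ : ∃ A', A' = a q + j * 2 ^ (E + h) + r := ⟨_, rfl⟩
      have hrB : 2 ^ h ≤ 2 ^ (E + h) := Nat.pow_le_pow_right (by norm_num) (by omega)
      have hEB : 2 ^ E ≤ 2 ^ (E + h) := Nat.pow_le_pow_right (by norm_num) (by omega)
      have i1 : 2 ^ k q ≤ A' := by omega
      have i2 : 2 ^ E ≤ A' := by omega
      have i3 : (A' : ℝ) ≤ (2 : ℝ) ^ ((1 + 2 * δ) * k q) := by
        refine le_trans ?_ g4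
        have : A' ≤ a q + (j + 1) * 2 ^ (E + h) := by
          rw [hA', add_mul, one_mul]
          omega
        exact_mod_cast this
      have i4 : A' ≠ 2 ^ h * A := by
        intro h7
        apply hdeg
        rw [hA', hA, mul_add] at h7
        have : j * 2 ^ (E + h) = 2 ^ h * (j * 2 ^ E) := by rw [pow_add]; ring
        omega
      have i5 := h2 x hxP2 δ hδ hδb p (k p) A q (k q) A' h E hxp (by omega) (by omega) hqx d1 d2' d2q (by omega)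
        f2 f3 i1 i2 hAle i3 hEr i4
      have i6 : ∑ m ∈ Ico (j * 2 ^ E) ((j + 1) * 2 ^ E), OO p S (a p + m) * OO q S' (a q + (m * 2 ^ h + r)) =
          ∑ m ∈ range (2 ^ E), OO p S (m + A) * OO q S' (2 ^ h * m + A') := by
        rw [Finset.sum_Ico_eq_sum_range]
        have e : (j + 1) * 2 ^ E - j * 2 ^ E = 2 ^ E := by
          rw [add_mul, one_mul]
          exact Nat.add_sub_cancel_left _ _
        rw [e]
        refine Finset.sum_congr rfl fun m _ => ?_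
        have e1 : a p + (j * 2 ^ E + m) = m + A := by rw [hA]; ring
        have e2 : a q + ((j * 2 ^ E + m) * 2 ^ h + r) = 2 ^ h * m + A' := by rw [hA', pow_add]; ring
        rw [e1, e2]
      have i7 : ∑ m ∈ Ico (j * 2 ^ E) ((j + 1) * 2 ^ E), RR p S (a p + m) ≤ L ^ 2 * (2 : ℝ) ^ E := by
        rw [shift (fun n => RR p S n) (a p) j (2 ^ E), ← hA, ← hH]
        exact h3 x hxP3 δ hδ hδb p (k p) A (2 ^ E) hxp d1 (le_trans Nat.one_le_two_pow f2) f4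
          (by rw [hH]; exact f5)
      calc ∑ m ∈ Ico (j * 2 ^ E) ((j + 1) * 2 ^ E), XX p (a p + m) * XX q (a q + (m * 2 ^ h + r)) ≤
            ∑ m ∈ Ico (j * 2 ^ E) ((j + 1) * 2 ^ E), (OO p S (a p + m) * OO q S' (a q + (m * 2 ^ h + r)) +
              RR p S (a p + m) + RR q S' (a q + (m * 2 ^ h + r))) :=
            Finset.sum_le_sum fun m _ => XXXX_le _ _ _ _ _ _
        _ = ∑ m ∈ range (2 ^ E), OO p S (m + A) * OO q S' (2 ^ h * m + A') +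
            (∑ m ∈ Ico (j * 2 ^ E) ((j + 1) * 2 ^ E), RR p S (a p + m) +
            ∑ m ∈ Ico (j * 2 ^ E) ((j + 1) * 2 ^ E), RR q S' (a q + (m * 2 ^ h + r))) := by
            rw [Finset.sum_add_distrib, Finset.sum_add_distrib, i6, add_assoc]
        _ ≤ _ := by
            refine add_le_add i5 (add_le_add_left i7 _)
  refine (Finset.sum_le_sum inner).trans ?_
  rw [Finset.sum_add_distrib, Finset.sum_add_distrib, Finset.sum_add_distrib, Finset.sum_const, card_range,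
    nsmul_eq_mul, Finset.sum_const, card_range, nsmul_eq_mul, hB]
  have j1 : ∑ r ∈ range (2 ^ h), (if a q + r = 2 ^ h * a p then C₁ * L * (2 : ℝ) ^ E else 0) ≤
      C₁ * L * (2 : ℝ) ^ E := by
    rw [← Finset.sum_filter, Finset.sum_const, nsmul_eq_mul]
    have : #((range (2 ^ h)).filter (fun r => a q + r = 2 ^ h * a p)) ≤ 1 := by
      rw [Finset.card_le_one]
      intro u hu v hv
      rw [mem_filter] at hu hv
      omega
    have h8 : (#((range (2 ^ h)).filter (fun r => a q + r = 2 ^ h * a p)) : ℝ) ≤ 1 := by exact_mod_cast this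
    have h9 : 0 ≤ C₁ * L * (2 : ℝ) ^ E := by positivity
    nlinarith
  have j2 : ∑ r ∈ range (2 ^ h), ∑ m ∈ Ico (j * 2 ^ E) ((j + 1) * 2 ^ E), RR q S' (a q + (m * 2 ^ h + r)) ≤
      L ^ 2 * ((2 : ℝ) ^ E * (2 : ℝ) ^ h) := by
    rw [Finset.sum_comm, ← sum_cells (2 ^ h) (j * 2 ^ E) ((j + 1) * 2 ^ E) (Nat.mul_le_mul_right _ (Nat.le_succ j))
      (fun n => RR q S' (a q + n)), mul_assoc, mul_assoc, ← hsplit, shift (fun n => RR q S' n) (a q) j (2 ^ (E + h))]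
    have e1 : (2 : ℝ) ^ E * (2 : ℝ) ^ h = ((2 ^ (E + h) : ℕ) : ℝ) := by
      push_cast
      rw [pow_add]
    rw [e1]
    refine h3 x hxP3 δ hδ hδb q (k q) _ (2 ^ (E + h)) (by omega) d1' (le_trans Nat.one_le_two_pow g2) ?_ ?_
    · refine le_trans (le_of_eq ?_) g4
      push_cast
      ring
    · push_cast
      exact g5
  have e2 : (2 : ℝ) ^ (E + h) = (2 : ℝ) ^ E * (2 : ℝ) ^ h := pow_add _ _ _
  rw [e2]
  have e3 : ((2 : ℝ) ^ h)⁻¹ * (2 : ℝ) ^ h = 1 := inv_mul_cancel₀ (by positivity)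
  have hfin : (C₁ + (C ^ 2 + 2)) * (L ^ 2 + ((2 : ℝ) ^ h)⁻¹ * L) * ((2 : ℝ) ^ E * (2 : ℝ) ^ h) =
      (C₁ * L * (2 : ℝ) ^ E + (2 : ℝ) ^ h * ((C * L) ^ 2 * (2 : ℝ) ^ E)) +
      ((2 : ℝ) ^ h * (L ^ 2 * (2 : ℝ) ^ E) + L ^ 2 * ((2 : ℝ) ^ E * (2 : ℝ) ^ h)) +
      (C₁ * L ^ 2 * ((2 : ℝ) ^ E * (2 : ℝ) ^ h) + (C ^ 2 + 2) * L * (2 : ℝ) ^ E) := by
    have e4 : (C₁ + (C ^ 2 + 2)) * (L ^ 2 + ((2 : ℝ) ^ h)⁻¹ * L) * ((2 : ℝ) ^ E * (2 : ℝ) ^ h) =
      (C₁ + (C ^ 2 + 2)) * L ^ 2 * ((2 : ℝ) ^ E * (2 : ℝ) ^ h) +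
      (C₁ + (C ^ 2 + 2)) * L * (2 : ℝ) ^ E * (((2 : ℝ) ^ h)⁻¹ * (2 : ℝ) ^ h) := by ring
    rw [e4, e3]
    ring
  rw [hfin]
  have h10 : 0 ≤ C₁ * L ^ 2 * ((2 : ℝ) ^ E * (2 : ℝ) ^ h) + (C ^ 2 + 2) * L * (2 : ℝ) ^ E := by positivity
  linarith

end Pool.Agent.T9h55.PF
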