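import Pool.Agent.T9h55.PF.AE

/-! The sets of exponents of finite weight (helper55). -/

set_option autoImplicit false

namespace Pool.Agent.T9h55.PF

open Finset Filter Topology MeasureTheory
open Pool.Agent.H305R2 (roughPart)
open Pool.Agent.N176.GP (XX XX_nonneg XX_sq sum_cells sum_div)

lemma hit_prob : ∃ δ₀ : ℝ, 0 < δ₀ ∧ δ₀ ≤ 1 / 64 ∧ ∀ (δ : ℝ) (a k : ℕ → ℕ) (c₁ : ℝ) (c₂ N₀ : ℕ), 0 < δ → δ ≤ δ₀ →
    Dat δ a k c₁ c₂ N₀ → ∃ B : ℝ, 0 < B ∧ ∃ N₁ : ℕ, ∀ p > N₁, p.Prime →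
      volume {γ : ℝ | 0 < γ ∧ γ < 1 ∧ (roughPart p (a p + ⌊γ * 2 ^ k p⌋₊)).Prime} ≤
        ENNReal.ofReal (B * (Real.log p / p)) := by
  classical
  obtain ⟨δ₀, hδ₀, hδ₀1, hcell⟩ := cell_one
  refine ⟨δ₀, hδ₀, hδ₀1, fun δ a k c₁ c₂ N₀ hδ hδ0 D => ?_⟩
  obtain ⟨c, C, hc, hC, h1D⟩ := hcell δ c₁ c₂ hδ hδ0 D.c₁_pos D.c₂_pos
  obtain ⟨P, h1⟩ := h1D a k N₀ D
  refine ⟨8 * C, by positivity, P + 2, fun p hp hpr => ?_⟩
  obtain ⟨x, hx⟩ : ∃ x, p = x + 1 := ⟨p - 1, by omega⟩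
  have h2 := (h1 x (by omega) p hpr (by omega) (by omega) 0 (by
    have : (0 : ℝ) ≤ k p := Nat.cast_nonneg _
    push_cast
    positivity) 0 (by simp)).2
  rw [Nat.sub_zero, zero_mul, zero_add, one_mul] at h2
  have h3 := cheb (k p) (fun n => XX p (a p + n)) (C * (Real.log x / x)) (1 / 2) (by norm_num) (by
    refine le_trans (le_of_eq ?_) h2
    rw [Finset.range_eq_Ico]
    refine Finset.sum_congr rfl fun n _ => ?_
    rw [max_eq_left (XX_nonneg _ _), sq, XX_sq])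
  have hsub : {γ : ℝ | 0 < γ ∧ γ < 1 ∧ (roughPart p (a p + ⌊γ * 2 ^ k p⌋₊)).Prime} ⊆
      {γ : ℝ | 0 < γ ∧ γ < 1 ∧ 1 / 2 < (fun n => XX p (a p + n)) ⌊γ * 2 ^ k p⌋₊} := by
    rintro γ ⟨q1, q2, q3⟩
    refine ⟨q1, q2, ?_⟩
    simp only [XX]
    rw [if_pos q3]
    norm_num
  refine (measure_mono hsub).trans (h3.trans (ENNReal.ofReal_le_ofReal ?_))
  have hx2 : 2 ≤ x := by omega
  have hx2r : (2 : ℝ) ≤ x := by exact_mod_cast hx2
  have hx0 : (0 : ℝ) < x := by linarith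
  have hpx : (p : ℝ) = x + 1 := by rw [hx]; push_cast; rfl
  have hlx : 0 ≤ Real.log x := Real.log_natCast_nonneg x
  have e3 : Real.log x ≤ Real.log p := Real.log_le_log hx0 (by rw [hpx]; linarith)
  have e2 : Real.log x / x ≤ 2 * (Real.log p / p) := by
    rw [div_le_iff₀ hx0]
    have e4 : 2 * (Real.log p / p) * x = Real.log p * (2 * x / p) := by ring
    rw [e4]
    have e5 : 1 ≤ 2 * (x : ℝ) / p := by
      rw [one_le_div (by rw [hpx]; linarith), hpx]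
      linarith
    nlinarith
  calc C * (Real.log x / x) / (1 / 2) ^ 2 = 4 * C * (Real.log x / x) := by ring
    _ ≤ 4 * C * (2 * (Real.log p / p)) := by gcongr
    _ = _ := by ring

/-- **finite weight, finitely many exponents** -/
theorem ae_finite : ∃ δ₀ : ℝ, 0 < δ₀ ∧ δ₀ ≤ 1 / 64 ∧ ∀ (δ : ℝ) (a k : ℕ → ℕ) (c₁ : ℝ) (c₂ N₀ : ℕ), 0 < δ → δ ≤ δ₀ →
    Dat δ a k c₁ c₂ N₀ → ∀ S : Set ℕ, (∃ B : ℝ, ∀ n, vv (PS S n) ≤ B) →
      ∀ᵐ γ : ℝ, 0 < γ → γ < 1 → {p : ℕ | p.Prime ∧ p ∈ S ∧ (roughPart p (a p + ⌊γ * 2 ^ k p⌋₊)).Prime}.Finite := by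
  classical
  obtain ⟨δ₀, hδ₀, hδ₀1, hh⟩ := hit_prob
  refine ⟨δ₀, hδ₀, hδ₀1, fun δ a k c₁ c₂ N₀ hδ hδ0 D S hS => ?_⟩
  obtain ⟨B, hB, N₁, hprob⟩ := hh δ a k c₁ c₂ N₀ hδ hδ0 D
  obtain ⟨B', hB'⟩ := hS
  set g : ℕ → ℝ := fun p => if p.Prime ∧ p ∈ S then Real.log p / p else 0 with hg
  have hg0 : ∀ p, 0 ≤ g p := by
    intro p
    simp only [hg]
    split_ifs
    · exact div_nonneg (Real.log_natCast_nonneg p) (Nat.cast_nonneg p)
    · exact le_rfl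
  have hgs : Summable g := by
    refine summable_of_sum_range_le hg0 (c := B') fun n => ?_
    refine le_trans ?_ (hB' n)
    unfold vv PS
    rw [Finset.sum_filter]
    refine Finset.sum_le_sum_of_subset_of_nonneg (Finset.range_mono (Nat.le_succ n)) fun p _ _ => hg0 p
  set s : ℕ → Set ℝ := fun p => {γ : ℝ | 0 < γ ∧ γ < 1 ∧ p.Prime ∧ p ∈ S ∧ N₁ < p ∧
    (roughPart p (a p + ⌊γ * 2 ^ k p⌋₊)).Prime} with hs
  have hμ : ∀ p, volume (s p) ≤ ENNReal.ofReal (B * g p) := by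
    intro p
    by_cases h : p.Prime ∧ p ∈ S ∧ N₁ < p
    · have e : g p = Real.log p / p := by
        simp only [hg]
        rw [if_pos ⟨h.1, h.2.1⟩]
      rw [e]
      refine le_trans (measure_mono ?_) (hprob p h.2.2 h.1)
      rintro γ ⟨q1, q2, _, _, _, q3⟩
      exact ⟨q1, q2, q3⟩
    · have : s p = ∅ := by
        rw [Set.eq_empty_iff_forall_notMem]
        rintro γ ⟨_, _, q1, q2, q3, _⟩
        exact h ⟨q1, q2, q3⟩
      rw [this, measure_empty]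
      exact zero_le
  have hsum : ∑' p, volume (s p) ≠ ⊤ := by
    refine ne_top_of_le_ne_top ?_ (ENNReal.tsum_le_tsum hμ)
    rw [← ENNReal.ofReal_tsum_of_nonneg (fun p => mul_nonneg hB.le (hg0 p)) (hgs.mul_left B)]
    exact ENNReal.ofReal_ne_top
  filter_upwards [ae_finite_setOf_mem hsum] with γ hγ h0 h1
  refine (hγ.union (Set.finite_le_nat N₁)).subset ?_
  rintro p ⟨q1, q2, q3⟩
  by_cases h : N₁ < p
  · exact Or.inl ⟨h0, h1, q1, q2, h, q3⟩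
  · exact Or.inr (not_lt.1 h)

end Pool.Agent.T9h55.PF
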