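import Pool.Agent.T9h55.PF.Fi
import Pool.Agent.T9h55.PF.Ins

/-! Sequences of the size of the Fibonacci numbers (helper55). -/

set_option autoImplicit false

namespace Pool.Agent.T9h55.PF

open Finset Filter Topology MeasureTheory
open Real (goldenRatio)
open Pool.Agent.H305R2 (roughPart)
open Pool.Agent.N176.GP (XX)

lemma scale (R : ℕ → ℝ → Prop) (h : ∀ m, ∀ᵐ γ : ℝ, 0 < γ → γ < 1 → R m γ) :
    ∀ᵐ γ : ℝ, ∀ m : ℕ, 0 < γ * (2 ^ m)⁻¹ → γ * (2 ^ m)⁻¹ < 1 → R m (γ * (2 ^ m)⁻¹) := by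
  rw [ae_all_iff]
  intro m
  have h1 := h m
  rw [ae_iff] at h1 ⊢
  have h2 := Real.volume_preimage_mul_right (a := ((2 : ℝ) ^ m)⁻¹) (by positivity)
    {γ : ℝ | ¬ (0 < γ → γ < 1 → R m γ)}
  rw [h1, mul_zero] at h2
  exact h2

lemma scale_floor (γ : ℝ) (m k : ℕ) : ⌊γ * (2 ^ m)⁻¹ * 2 ^ (k + m)⌋₊ = ⌊γ * 2 ^ k⌋₊ := by
  congr 1
  rw [pow_add]
  field_simp

theorem main : ∃ δ c C : ℝ, 0 < δ ∧ δ < 1 ∧ 0 < c ∧ 0 < C ∧ ∀ θ : ℝ, 1 - δ < θ → θ < 1 → ∀ (a : ℕ → ℕ) (K : ℝ),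
    (∀ᶠ n : ℕ in atTop, goldenRatio ^ n ≤ K * a n ∧ (a n : ℝ) ≤ K * goldenRatio ^ n) → ∀ S : Set ℕ,
      ((∀ B : ℝ, ∃ n, B ≤ vv (PS S n)) → ∀ᵐ γ : ℝ, 0 < γ → ∀ᶠ n : ℕ in atTop,
        c * vv (PS S n) ≤ MM a (kk θ) (PS S n) γ ∧ MM a (kk θ) (PS S n) γ ≤ C * vv (PS S n)) ∧
      ((∃ B : ℝ, ∀ n, vv (PS S n) ≤ B) → ∀ᵐ γ : ℝ, 0 < γ →
        {p : ℕ | p.Prime ∧ p ∈ S ∧ (roughPart p (a p + ⌊γ * 2 ^ kk θ p⌋₊)).Prime}.Finite) := by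
  obtain ⟨δ₁, hδ₁, hδ₁1, h1⟩ := ae_bounds
  obtain ⟨δ₂, hδ₂, hδ₂1, h2⟩ := ae_finite
  obtain ⟨δ, hδd⟩ : ∃ δ, δ = min δ₁ δ₂ := ⟨_, rfl⟩
  have hδ : 0 < δ := by rw [hδd]; positivity
  have ha1 : δ ≤ δ₁ := by rw [hδd]; exact min_le_left _ _
  have ha2 : δ ≤ δ₂ := by rw [hδd]; exact min_le_right _ _
  have hδ64 : δ ≤ 1 / 64 := ha1.trans hδ₁1
  obtain ⟨c, C, hc, hC, hae⟩ := h1 δ (1 / 4) 1 hδ ha1 (by norm_num) le_rfl
  refine ⟨δ / (1 + δ), c, C, by positivity, by rw [div_lt_one (by linarith)]; linarith, hc, hC,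
    fun θ hθ hθ1 a K ha S => ?_⟩
  have hθ' : 1 < (1 + δ) * θ := by
    have e : 1 - δ / (1 + δ) = 1 / (1 + δ) := by field_simp; ring
    rw [e, div_lt_iff₀ (by linarith)] at hθ
    linarith
  have hex : ∀ m : ℕ, ∃ N₀ : ℕ, Dat δ a (fun p => kk θ p + m) (1 / 4) 1 N₀ := fun m =>
    dat a K ha δ θ hδ hδ64 hθ' hθ1 m
  have hm : ∀ γ : ℝ, 0 < γ → ∃ m : ℕ, 0 < γ * (2 ^ m)⁻¹ ∧ γ * (2 ^ m)⁻¹ < 1 := by
    intro γ hγ
    obtain ⟨m, hm⟩ := pow_unbounded_of_one_lt γ (one_lt_two (α := ℝ))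
    refine ⟨m, by positivity, ?_⟩
    rw [← div_eq_mul_inv, div_lt_one (by positivity)]
    exact hm
  constructor
  · intro hS
    have h3 := scale (fun m γ => ∀ᶠ n : ℕ in atTop,
        c * vv (PS S n) ≤ MM a (fun p => kk θ p + m) (PS S n) γ ∧
        MM a (fun p => kk θ p + m) (PS S n) γ ≤ C * vv (PS S n)) (fun m => by
      obtain ⟨N₀, D⟩ := hex m
      exact hae a (fun p => kk θ p + m) N₀ D S hS)
    filter_upwards [h3] with γ hγ h0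
    obtain ⟨m, hm1, hm2⟩ := hm γ h0
    have h4 := hγ m hm1 hm2
    have e : ∀ A, MM a (fun p => kk θ p + m) A (γ * (2 ^ m)⁻¹) = MM a (kk θ) A γ := by
      intro A
      unfold MM
      refine Finset.sum_congr rfl fun p _ => ?_
      rw [scale_floor]
    simp only [e] at h4
    exact h4
  · intro hS
    have h3 := scale (fun m γ =>
        {p : ℕ | p.Prime ∧ p ∈ S ∧ (roughPart p (a p + ⌊γ * 2 ^ (kk θ p + m)⌋₊)).Prime}.Finite) (fun m => by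
      obtain ⟨N₀, D⟩ := hex m
      exact h2 δ a (fun p => kk θ p + m) (1 / 4) 1 N₀ hδ ha2 D S hS)
    filter_upwards [h3] with γ hγ h0
    obtain ⟨m, hm1, hm2⟩ := hm γ h0
    have h4 := hγ m hm1 hm2
    simp only [scale_floor] at h4
    exact h4

end Pool.Agent.T9h55.PF
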