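import Pool.Agent.N441.SH.TUA
import Pool.Agent.N136.OW.SV
import Pool.Agent.N75.OW.SG

/-! Upper bounds for the number of integers `m` for which one or two linear forms have values whose `p`-rough parts
are prime (helper55; after `Pool.Agent.N441.SH.TUA`). -/

set_option autoImplicit false

namespace Pool.Agent.T9h55.PF

open Finset Filter
open Pool.Agent.H305R2 (roughPart roughPart_prime SM)
open Pool.Agent.N441.SH (cc cc_lt cc_iff)
open Pool.Agent.N176.OW.TU2 (card_image_ge sum_primes)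

/-- the `p`-rough part is prime and the smooth part is less than `S` -/
def Okv (p : ℕ) (S : ℝ) (v : ℕ) : Prop := (roughPart p v).Prime ∧ ((v / roughPart p v : ℕ) : ℝ) < S

lemma okv_lt {p l v : ℕ} {S : ℝ} (h : Okv p S v) (hl : l.Prime) (hpl : p < l) (hd : l ∣ v) : (v : ℝ) < S * l := by
  obtain ⟨h1, s, hs, hv⟩ := roughPart_prime h.1
  obtain ⟨q, hq⟩ : ∃ q, q = roughPart p v := ⟨_, rfl⟩
  rw [← hq] at h1 hv
  have hqp : q.Prime := by rw [hq]; exact h.1
  have h2 := h.2
  rw [← hq] at h2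
  have hlq : l = q := by
    rw [hv] at hd
    rcases (Nat.Prime.dvd_mul hl).1 hd with h3 | h3
    · exfalso
      have h4 := hs.2 l ((Nat.mem_primeFactorsList (Nat.ne_zero_of_mem_smoothNumbers hs)).2 ⟨hl, h3⟩)
      omega
    · exact (Nat.prime_dvd_prime_iff_eq hl hqp).1 h3
  have h3 : v / q = s := by
    conv_lhs => rw [hv]
    exact Nat.mul_div_cancel _ hqp.pos
  rw [h3] at h2
  have h4 : (v : ℝ) = s * l := by
    rw [hlq]
    exact_mod_cast hv
  rw [h4]
  exact mul_lt_mul_of_pos_right h2 (by exact_mod_cast hl.pos)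

/-- coincidence of classes -/
lemma coincG {h h' s l : ℕ} {o o' : ℤ} (hl : 0 < l) (hbl : Nat.Coprime 2 l)
    (heq : cc (2 ^ h) s o l = cc (2 ^ h') s o' l) : (l : ℤ) ∣ (2 : ℤ) ^ h * o' - (2 : ℤ) ^ h' * o := by
  obtain ⟨n, hn⟩ : ∃ n, n = cc (2 ^ h) s o l + l := ⟨_, rfl⟩
  have hlt := cc_lt (a := 2 ^ h) (s := s) (e := o) hl
  have hn1 : n % l = cc (2 ^ h) s o l := by
    rw [hn, Nat.add_mod_right, Nat.mod_eq_of_lt hlt]
  have hn0 : 1 ≤ n := by omega
  have d1 := (cc_iff hl (Nat.Coprime.pow_left h hbl) hn0).2 hn1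
  have d2 := (cc_iff hl (Nat.Coprime.pow_left h' hbl) hn0).2 (hn1.trans heq)
  have e1 : (2 : ℤ) ^ h * o' - (2 : ℤ) ^ h' * o =
      (2 : ℤ) ^ h * (((2 ^ h' : ℕ) : ℤ) * ((n + s - 1 : ℕ) : ℤ) + o') -
        (2 : ℤ) ^ h' * (((2 ^ h : ℕ) : ℤ) * ((n + s - 1 : ℕ) : ℤ) + o) := by
    push_cast
    ring
  rw [e1]
  exact dvd_sub (d2.mul_left _) (d1.mul_left _)

open Classical in
/-- **the sieve bound for at most two forms** -/
theorem sieveF (c D : ℝ) (hc : 0 < c) (hD : 0 ≤ D) : ∃ C : ℝ, 1 ≤ C ∧ ∃ P : ℕ, ∀ x ≥ P,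
    ∀ (F : Finset ℕ) (p h e : ℕ → ℕ) (S : ℕ → ℝ) (E : ℕ), 1 ≤ #F → #F ≤ 2 → (∀ i ∈ F, x < p i ∧ p i ≤ 2 * x) →
    c * x ≤ E → (∀ i ∈ F, (2 : ℝ) ^ E ≤ e i ∧ S i ^ 2 ≤ e i ∧ 0 ≤ S i ∧ (2 : ℝ) ^ h i * e i ≤ (2 : ℝ) ^ (D * x) ∧
      (2 : ℝ) ^ h i ≤ (2 : ℝ) ^ (D * x)) →
    (∀ i ∈ F, ∀ j ∈ F, i < j → 2 ^ h i * e j ≠ 2 ^ h j * e i) →
    (#((range (2 ^ E)).filter (fun m => ∀ i ∈ F, Okv (p i) (S i) (2 ^ h i * m + e i))) : ℝ) ≤
      (C * (Real.log x / x)) ^ #F * (2 : ℝ) ^ E := by
  obtain ⟨C0, hC0, hSV⟩ := Pool.Agent.N136.OW.sv2 Pool.Agent.N75.OW.sg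
  obtain ⟨D₁, hD₁, hSV⟩ := hSV (max C0 16) (le_max_left _ _)
  set C₁ : ℝ := max C0 16 with hC₁
  have hC₁16 : 16 ≤ C₁ := le_max_right _ _
  have hl2 : 0 < Real.log 2 := Real.log_pos (by norm_num)
  -- the logarithm is small
  have hlo : (fun x : ℝ => Real.log x) =o[atTop] fun x : ℝ => x := Real.isLittleO_log_id_atTop
  have hlo2 := hlo.bound (c := c * Real.log 2 / (4 * C₁)) (by positivity)
  obtain ⟨x1, hx1⟩ := eventually_atTop.1 ((tendsto_natCast_atTop_atTop (R := ℝ)).eventually hlo2)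
  set K : ℝ := D₁ * Real.exp (2 * (2 * D * Real.log 2 + 1)) * (4 / (c * Real.log 2)) with hK
  have hexp1 : 1 ≤ Real.exp (2 * (2 * D * Real.log 2 + 1)) := Real.one_le_exp (by positivity)
  have hK0 : 0 ≤ K := by positivity
  refine ⟨max 1 K, le_max_left _ _, max x1 16, fun x hx F p h e S E hF1 hF2 hp hE he hnd => ?_⟩
  have hx16 : 16 ≤ x := (le_max_right _ _).trans hx
  have hxR : (16 : ℝ) ≤ x := by exact_mod_cast hx16
  have hx0 : (0 : ℝ) < x := by linarith
  have hlx1 : 1 ≤ Real.log x := by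
    rw [Real.le_log_iff_exp_le hx0]
    linarith [Real.exp_one_lt_d9]
  have hlx : 0 < Real.log x := by linarith
  have hxl : Real.log x ≤ c * Real.log 2 / (4 * C₁) * x := by
    have h3 := hx1 x ((le_max_left _ _).trans hx)
    rw [Real.norm_eq_abs, Real.norm_eq_abs, abs_of_nonneg hlx.le, abs_of_nonneg hx0.le] at h3
    exact h3
  obtain ⟨k, hkd⟩ : ∃ k, k = #F := ⟨_, rfl⟩
  rw [← hkd] at hF1 hF2 ⊢
  have hk1R : (1 : ℝ) ≤ k := by exact_mod_cast hF1
  have hk2R : (k : ℝ) ≤ 2 := by exact_mod_cast hF2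
  have hlN : Real.log ((2 ^ E : ℕ) : ℝ) = E * Real.log 2 := by
    push_cast
    rw [Real.log_pow]
  have hE0 : 0 < (E : ℝ) := lt_of_lt_of_le (by positivity) hE
  have hlog2x : Real.log ((2 * x : ℕ) : ℝ) ≤ 2 * Real.log x := by
    push_cast
    rw [two_mul (Real.log (x : ℝ)), ← Real.log_mul (by linarith) (by linarith)]
    exact Real.log_le_log (by linarith) (by nlinarith)
  have hlog2x' : Real.log x ≤ Real.log ((2 * x : ℕ) : ℝ) := by
    push_cast
    exact Real.log_le_log (by linarith) (by linarith)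
  have hlog2x0 : 0 < Real.log ((2 * x : ℕ) : ℝ) := by linarith
  -- the classes
  obtain ⟨f, hf⟩ : ∃ f : ℕ → ℕ → ℕ, f = fun l i => cc (2 ^ h i) 0 (e i : ℤ) l := ⟨_, rfl⟩
  obtain ⟨A, hA⟩ : ∃ A : Finset ℕ, A = ((range (2 ^ E)).filter
    (fun m => ∀ i ∈ F, Okv (p i) (S i) (2 ^ h i * m + e i))).image (fun m => m + 1) := ⟨_, rfl⟩
  have hAcard : #((range (2 ^ E)).filter (fun m => ∀ i ∈ F, Okv (p i) (S i) (2 ^ h i * m + e i))) = #A := by
    rw [hA, Finset.card_image_of_injective]
    intro a b hab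
    simpa using hab
  have hcop : ∀ l : ℕ, l.Prime → 2 * x < l → Nat.Coprime 2 l := by
    intro l hl hlx
    rw [Nat.coprime_comm, Nat.Prime.coprime_iff_not_dvd hl]
    intro h
    have := Nat.le_of_dvd (by omega) h
    omega
  have hmain := hSV k (2 ^ E) (2 * x) (2 * (2 * D * Real.log 2 + 1)) (fun l => F.image (f l)) A hF1 (by omega)
    (by nlinarith)
    (by
      rw [hlN]
      calc C₁ * k * Real.log ((2 * x : ℕ) : ℝ) ≤ C₁ * 2 * (2 * Real.log x) := by gcongr
        _ = 4 * C₁ * Real.log x := by ring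
        _ ≤ 4 * C₁ * (c * Real.log 2 / (4 * C₁) * x) := mul_le_mul_of_nonneg_left hxl (by positivity)
        _ = c * x * Real.log 2 := by field_simp
        _ ≤ E * Real.log 2 := mul_le_mul_of_nonneg_right hE hl2.le)
    (by
      intro n hn
      rw [hA, mem_image] at hn
      obtain ⟨m, hm, rfl⟩ := hn
      rw [mem_filter, mem_range] at hm
      rw [mem_Icc]
      omega)
    (by
      intro l hl hlx
      refine ⟨fun c hc => ?_, ?_⟩
      · rw [mem_image] at hc
        obtain ⟨i, _, rfl⟩ := hc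
        rw [mem_range, hf]
        exact cc_lt hl.pos
      · rw [hkd]
        exact Finset.card_image_le)
    (by
      intro n hn l hl hlx hsmall hmem
      rw [mem_image] at hmem
      obtain ⟨i, hi, hcl⟩ := hmem
      rw [hA, mem_image] at hn
      obtain ⟨m, hm, rfl⟩ := hn
      rw [mem_filter, mem_range] at hm
      rw [hf] at hcl
      have hd := (cc_iff hl.pos (Nat.Coprime.pow_left (h i) (hcop l hl hlx))
        (by omega : 1 ≤ m + 1)).2 hcl.symm
      have hd' : l ∣ 2 ^ h i * m + e i := by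
        have e1 : m + 1 + 0 - 1 = m := by omega
        rw [e1] at hd
        exact_mod_cast hd
      have h3 := okv_lt (hm.2 i hi) hl (by have := (hp i hi).2; omega) hd'
      obtain ⟨q1, q2, q3, q4, _⟩ := he i hi
      have he0 : (0 : ℝ) < e i := lt_of_lt_of_le (by positivity) q1
      have h4 : (e i : ℝ) ≤ ((2 ^ h i * m + e i : ℕ) : ℝ) := by
        push_cast
        have : (0 : ℝ) ≤ 2 ^ h i * m := by positivity
        linarith
      have hlR : (0 : ℝ) < l := by exact_mod_cast hl.pos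
      -- `l` is small
      have h5 : (l : ℝ) ^ 2 ≤ e i := by
        rw [hlN] at hsmall
        have hll : 0 ≤ Real.log l := Real.log_nonneg (by exact_mod_cast hl.one_lt.le)
        have h6 : 2 * Real.log l ≤ E * Real.log 2 := by
          refine le_trans ?_ hsmall
          have : 2 ≤ C₁ * k := by nlinarith
          nlinarith
        have h7 : Real.log ((l : ℝ) ^ 2) ≤ Real.log ((2 : ℝ) ^ E) := by
          rw [Real.log_pow, Real.log_pow]
          exact_mod_cast h6
        have h8 := (Real.log_le_log_iff (by positivity) (by positivity)).1 h7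
        exact h8.trans q1
      have h9 : (S i * l) ^ 2 ≤ (e i : ℝ) ^ 2 := by
        rw [mul_pow, sq (e i : ℝ)]
        exact mul_le_mul q2 h5 (by positivity) he0.le
      have h10 : S i * l ≤ e i := (pow_le_pow_iff_left₀ (by positivity) he0.le (by norm_num)).1 h9
      linarith)
    (by
      -- the density
      have step : ∀ l ∈ (Ioc (2 * x) (2 ^ E)).filter Nat.Prime,
          ((k : ℝ) - ((F.image (f l)).card : ℝ)) / l ≤
          ∑ j ∈ F, ∑ i ∈ F.filter (fun i => i < j),
            if l ∣ ((2 : ℤ) ^ h i * e j - (2 : ℤ) ^ h j * e i).natAbs then 1 / (l : ℝ) else 0 := by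
        intro l hl
        rw [mem_filter, mem_Ioc] at hl
        have lR : (0 : ℝ) < l := by exact_mod_cast hl.2.pos
        have h1 := card_image_ge F (f l)
        rw [← hkd] at h1
        have h2 : ((k : ℝ) - ((F.image (f l)).card : ℝ)) ≤
            ((F.filter (fun q => ∃ p ∈ F, p < q ∧ f l p = f l q)).card : ℝ) := by
          rw [sub_le_iff_le_add']
          exact_mod_cast h1
        rw [div_le_iff₀ lR]
        refine h2.trans ?_
        rw [Finset.card_eq_sum_ones, Nat.cast_sum, Finset.sum_filter, Finset.sum_mul]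
        refine Finset.sum_le_sum fun q hq => ?_
        rw [Finset.sum_mul]
        have hnn : ∀ i ∈ F.filter (fun i => i < q), 0 ≤
            (if l ∣ ((2 : ℤ) ^ h i * e q - (2 : ℤ) ^ h q * e i).natAbs then 1 / (l : ℝ) else 0) * l := by
          intro p _
          split_ifs
          · positivity
          · rw [zero_mul]
        split_ifs with h3
        · obtain ⟨i, hi, hpq, hfe⟩ := h3
          rw [hf] at hfe
          have hd : l ∣ ((2 : ℤ) ^ h i * e q - (2 : ℤ) ^ h q * e i).natAbs :=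
            Int.natCast_dvd.1 (coincG hl.2.pos (hcop l hl.2 hl.1.1) hfe)
          refine le_trans ?_ (Finset.single_le_sum hnn (mem_filter.2 ⟨hi, hpq⟩))
          rw [if_pos hd]
          rw [Nat.cast_one, one_div, inv_mul_cancel₀ lR.ne']
        · exact Finset.sum_nonneg hnn
      refine (Finset.sum_le_sum step).trans ?_
      rw [Finset.sum_comm]
      have inner : ∀ j ∈ F, ∑ l ∈ (Ioc (2 * x) (2 ^ E)).filter Nat.Prime,
          ∑ i ∈ F.filter (fun i => i < j),
            (if l ∣ ((2 : ℤ) ^ h i * e j - (2 : ℤ) ^ h j * e i).natAbs then 1 / (l : ℝ) else 0) ≤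
          (2 * D * Real.log 2 + 1) := by
        intro j hj
        rw [Finset.sum_comm]
        have h1 : ∀ i ∈ F.filter (fun i => i < j), ∑ l ∈ (Ioc (2 * x) (2 ^ E)).filter Nat.Prime,
            (if l ∣ ((2 : ℤ) ^ h i * e j - (2 : ℤ) ^ h j * e i).natAbs then 1 / (l : ℝ) else 0) ≤
            (2 * D * Real.log 2 + 1) / 2 := by
          intro i hi
          rw [mem_filter] at hi
          obtain ⟨_, _, _, q4, q5⟩ := he i hi.1
          obtain ⟨_, _, _, r4, r5⟩ := he j hj
          rw [← Finset.sum_filter]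
          have hD0 : ((2 : ℤ) ^ h i * e j - (2 : ℤ) ^ h j * e i).natAbs ≠ 0 := by
            rw [Int.natAbs_ne_zero]
            refine sub_ne_zero.2 fun h6 => hnd i hi.1 j hj hi.2 ?_
            exact_mod_cast h6
          have hDle : ((((2 : ℤ) ^ h i * e j - (2 : ℤ) ^ h j * e i).natAbs : ℕ) : ℝ) ≤
              2 * ((2 : ℝ) ^ (D * x) * (2 : ℝ) ^ (D * x)) := by
            have w1 : ((((2 : ℤ) ^ h i * e j - (2 : ℤ) ^ h j * e i).natAbs : ℕ) : ℝ) =
                |(2 : ℝ) ^ h i * e j - (2 : ℝ) ^ h j * e i| := by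
              rw [Nat.cast_natAbs]
              push_cast
              rfl
            rw [w1]
            refine (abs_sub _ _).trans ?_
            rw [abs_of_nonneg (by positivity), abs_of_nonneg (by positivity)]
            have hdx : (1 : ℝ) ≤ (2 : ℝ) ^ (D * x) := Real.one_le_rpow (by norm_num) (by positivity)
            have hej : (e j : ℝ) ≤ (2 : ℝ) ^ (D * x) := by
              refine le_trans ?_ r4
              exact le_mul_of_one_le_left (Nat.cast_nonneg _) (one_le_pow₀ (by norm_num))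
            have hei : (e i : ℝ) ≤ (2 : ℝ) ^ (D * x) := by
              refine le_trans ?_ q4
              exact le_mul_of_one_le_left (Nat.cast_nonneg _) (one_le_pow₀ (by norm_num))
            have w2 : (2 : ℝ) ^ h i * e j ≤ (2 : ℝ) ^ (D * x) * (2 : ℝ) ^ (D * x) :=
              mul_le_mul q5 hej (Nat.cast_nonneg _) (by positivity)
            have w3 : (2 : ℝ) ^ h j * e i ≤ (2 : ℝ) ^ (D * x) * (2 : ℝ) ^ (D * x) :=
              mul_le_mul r5 hei (Nat.cast_nonneg _) (by positivity)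
            linarith
          have h7 := sum_primes (y := 2 * x) (N := 2 ^ E)
            (D := ((2 : ℤ) ^ h i * e j - (2 : ℤ) ^ h j * e i).natAbs)
            (X := (2 * D * x + 1) * Real.log 2) (by omega) (Nat.pos_of_ne_zero hD0) (by
              have h8 := Real.log_le_log (by exact_mod_cast Nat.pos_of_ne_zero hD0) hDle
              rw [Real.log_mul (by norm_num) (by positivity), Real.log_mul (by positivity) (by positivity),
                Real.log_rpow (by norm_num)] at h8
              linarith)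
          refine h7.trans ?_
          rw [div_le_div_iff₀ (by positivity) (by norm_num)]
          push_cast at hlog2x' ⊢
          have h9 : (2 * D * x + 1) * Real.log 2 * 2 ≤ (2 * D * Real.log 2 + 1) * (2 * x) := by
            have : Real.log 2 ≤ 1 := by linarith [Real.log_two_lt_d9]
            nlinarith
          have h10 : (0 : ℝ) ≤ (2 * D * Real.log 2 + 1) * (2 * x) := by positivity
          have h11 : 1 ≤ Real.log (2 * (x : ℝ)) := hlx1.trans hlog2x'
          nlinarith
        refine (Finset.sum_le_sum h1).trans ?_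
        rw [Finset.sum_const, nsmul_eq_mul]
        have h2 : ((F.filter (fun i => i < j)).card : ℝ) ≤ 2 := by
          refine le_trans ?_ hk2R
          rw [hkd]
          exact_mod_cast Finset.card_le_card (Finset.filter_subset _ _)
        have h3 : 0 ≤ (2 * D * Real.log 2 + 1) / 2 := by positivity
        nlinarith
      refine (Finset.sum_le_sum inner).trans ?_
      rw [Finset.sum_const, nsmul_eq_mul, ← hkd]
      exact mul_le_mul_of_nonneg_right hk2R (by positivity))
  rw [hAcard]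
  refine hmain.trans ?_
  have hfrac : (k : ℝ) * Real.log ((2 * x : ℕ) : ℝ) / Real.log ((2 ^ E : ℕ) : ℝ) ≤
      4 / (c * Real.log 2) * (Real.log x / x) := by
    rw [hlN, div_le_iff₀ (by positivity)]
    have h1 : 4 / (c * Real.log 2) * (Real.log x / x) * (E * Real.log 2) =
        (2 * (2 * Real.log x)) * (E / (c * x)) := by
      field_simp
      ring
    rw [h1]
    have h2 : 1 ≤ (E : ℝ) / (c * x) := by
      rw [le_div_iff₀ (by positivity)]
      linarith
    calc (k : ℝ) * Real.log ((2 * x : ℕ) : ℝ) ≤ 2 * (2 * Real.log x) * 1 := by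
          rw [mul_one]
          gcongr
      _ ≤ 2 * (2 * Real.log x) * (E / (c * x)) := by gcongr
  have hfr0 : 0 ≤ (k : ℝ) * Real.log ((2 * x : ℕ) : ℝ) / Real.log ((2 ^ E : ℕ) : ℝ) := by
    rw [hlN]
    positivity
  have hexpk : Real.exp (2 * (2 * D * Real.log 2 + 1)) ≤ Real.exp (2 * (2 * D * Real.log 2 + 1)) ^ k :=
    le_self_pow₀ hexp1 (by omega)
  calc D₁ ^ k * Real.exp (2 * (2 * D * Real.log 2 + 1)) *
        (k * Real.log ((2 * x : ℕ) : ℝ) / Real.log ((2 ^ E : ℕ) : ℝ)) ^ k * ((2 ^ E : ℕ) : ℝ)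
      ≤ D₁ ^ k * Real.exp (2 * (2 * D * Real.log 2 + 1)) ^ k * (4 / (c * Real.log 2) * (Real.log x / x)) ^ k *
          ((2 ^ E : ℕ) : ℝ) := by
        gcongr
    _ = (K * (Real.log x / x)) ^ k * (2 : ℝ) ^ E := by
        rw [← mul_pow, ← mul_pow, hK]
        push_cast
        congr 2
        ring
    _ ≤ (max 1 K * (Real.log x / x)) ^ k * (2 : ℝ) ^ E := by
        gcongr
        exact le_max_right _ _

end Pool.Agent.T9h55.PF
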