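import Pool.Agent.T9h55.PF.Bl

/-! Sums of differences with conditional means at most zero; the sets of exponents of one class (helper55). -/

set_option autoImplicit false

namespace Pool.Agent.T9h55.PF

open Finset Filter Topology
open Pool.Agent.H305R2 (roughPart)
open Pool.Agent.N176.GP (XX XX_nonneg sum_cells sum_div)

lemma max_step (Z y : ℝ) : (max (Z + y) 0) ^ 2 ≤ (max Z 0) ^ 2 + 2 * max Z 0 * y + y ^ 2 := by
  rcases le_total 0 Z with h | h
  · rw [max_eq_left h]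
    rcases le_total 0 (Z + y) with h1 | h1
    · rw [max_eq_left h1]
      nlinarith
    · rw [max_eq_right h1]
      nlinarith [sq_nonneg (Z + y)]
  · rw [max_eq_right h]
    rcases le_total 0 (Z + y) with h1 | h1
    · rw [max_eq_left h1]
      nlinarith
    · rw [max_eq_right h1]
      nlinarith [sq_nonneg y]

/-- sums over the cells -/
lemma cells (g : ℕ → ℝ) (u d : ℕ) : ∑ n ∈ range (2 ^ (u + d)), g n =
    ∑ j ∈ range (2 ^ u), ∑ n ∈ Ico (j * 2 ^ d) ((j + 1) * 2 ^ d), g n := by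
  have h := sum_cells (2 ^ d) 0 (2 ^ u) (Nat.zero_le _) g
  rw [zero_mul, ← pow_add, ← Finset.range_eq_Ico, ← Finset.range_eq_Ico] at h
  rw [h]
  refine Finset.sum_congr rfl fun j _ => ?_
  rw [sum_cells (2 ^ d) j (j + 1) (Nat.le_succ j) g, Nat.Ico_succ_singleton, Finset.sum_singleton]

/-- **second moment of the positive part** -/
lemma iter (lv : ℕ → ℕ) (hlv : ∀ i, lv i ≤ lv (i + 1)) (Z y : ℕ → ℕ → ℝ) (s : ℕ → ℝ) (hZ0 : ∀ n, Z 0 n = 0)
    (hZ : ∀ i n, Z (i + 1) n = Z i (n / 2 ^ (lv (i + 1) - lv i)) + y i n)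
    (hy : ∀ i, ∀ j < 2 ^ lv i,
      ∑ n ∈ Ico (j * 2 ^ (lv (i + 1) - lv i)) ((j + 1) * 2 ^ (lv (i + 1) - lv i)), y i n ≤ 0)
    (hy2 : ∀ i, ∀ j < 2 ^ lv i,
      ∑ n ∈ Ico (j * 2 ^ (lv (i + 1) - lv i)) ((j + 1) * 2 ^ (lv (i + 1) - lv i)), y i n ^ 2 ≤
        s i * (2 : ℝ) ^ (lv (i + 1) - lv i)) (K : ℕ) :
    ∑ n ∈ range (2 ^ lv K), (max (Z K n) 0) ^ 2 ≤ (∑ i ∈ range K, s i) * (2 : ℝ) ^ lv K := by
  induction K with
  | zero => simp [hZ0]
  | succ K ih =>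
    obtain ⟨d, hd⟩ : ∃ d, d = lv (K + 1) - lv K := ⟨_, rfl⟩
    have e : lv (K + 1) = lv K + d := by have := hlv K; omega
    have hZK := hZ K
    have hyK := hy K
    have hyK2 := hy2 K
    rw [← hd] at hZK hyK hyK2
    rw [e, cells]
    have inner : ∀ j ∈ range (2 ^ lv K), ∑ n ∈ Ico (j * 2 ^ d) ((j + 1) * 2 ^ d), (max (Z (K + 1) n) 0) ^ 2 ≤
        (2 : ℝ) ^ d * (max (Z K j) 0) ^ 2 + s K * (2 : ℝ) ^ d := by
      intro j hj
      rw [mem_range] at hj
      have h1 : ∀ n ∈ Ico (j * 2 ^ d) ((j + 1) * 2 ^ d), (max (Z (K + 1) n) 0) ^ 2 ≤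
          (max (Z K j) 0) ^ 2 + 2 * max (Z K j) 0 * y K n + y K n ^ 2 := by
        intro n hn
        rw [mem_Ico] at hn
        have h2 : n / 2 ^ d = j := by
          rw [Nat.div_eq_iff (by positivity)]
          constructor
          · exact hn.1
          · have := hn.2
            rw [add_mul, one_mul] at this
            omega
        rw [hZK, h2]
        exact max_step _ _
      refine (Finset.sum_le_sum h1).trans ?_
      rw [Finset.sum_add_distrib, Finset.sum_add_distrib, Finset.sum_const, Nat.card_Ico, nsmul_eq_mul,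
        ← Finset.mul_sum]
      have h3 : (((j + 1) * 2 ^ d - j * 2 ^ d : ℕ) : ℝ) = (2 : ℝ) ^ d := by
        rw [add_mul, one_mul, Nat.add_sub_cancel_left]
        push_cast
        rfl
      rw [h3]
      have h4 := hyK j hj
      have h5 := hyK2 j hj
      have h6 : 0 ≤ 2 * max (Z K j) 0 := by positivity
      have h7 : 2 * max (Z K j) 0 * ∑ n ∈ Ico (j * 2 ^ d) ((j + 1) * 2 ^ d), y K n ≤ 0 :=
        mul_nonpos_of_nonneg_of_nonpos h6 h4
      linarith
    refine (Finset.sum_le_sum inner).trans ?_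
    rw [Finset.sum_add_distrib, ← Finset.mul_sum, Finset.sum_const, card_range, nsmul_eq_mul,
      Finset.sum_range_succ, pow_add]
    push_cast
    have h8 : 0 ≤ (2 : ℝ) ^ d := by positivity
    have h9 := mul_le_mul_of_nonneg_left ih h8
    calc (2 : ℝ) ^ d * ∑ i ∈ range (2 ^ lv K), (max (Z K i) 0) ^ 2 + (2 : ℝ) ^ lv K * (s K * (2 : ℝ) ^ d) ≤
          (2 : ℝ) ^ d * ((∑ i ∈ range K, s i) * (2 : ℝ) ^ lv K) + (2 : ℝ) ^ lv K * (s K * (2 : ℝ) ^ d) := by
          linarith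
      _ = _ := by ring

lemma HH_div (a k : ℕ → ℕ) (T : Finset ℕ) (t u n : ℕ) (htu : t ≤ u) (hT : ∀ p ∈ T, k p ≤ t) :
    HH a k T t (n / 2 ^ (u - t)) = HH a k T u n := by
  unfold HH
  refine Finset.sum_congr rfl fun p hp => ?_
  have h := hT p hp
  rw [Nat.div_div_eq_div_mul, ← pow_add]
  congr 4
  omega

lemma HH_union (a k : ℕ → ℕ) (T T' : Finset ℕ) (h : Disjoint T T') (t n : ℕ) :
    HH a k (T ∪ T') t n = HH a k T t n + HH a k T' t n := Finset.sum_union h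

lemma vv_union (T T' : Finset ℕ) (h : Disjoint T T') : vv (T ∪ T') = vv T + vv T' := Finset.sum_union h

/-- the exponents of the first `K` blocks of the class `r` -/
def BB (A : Finset ℕ) (κ r K : ℕ) : Finset ℕ :=
  A.filter (fun p => ∃ i < K, 2 ^ (κ * i + r) < p ∧ p ≤ 2 * 2 ^ (κ * i + r))

/-- a block -/
def TT (A : Finset ℕ) (κ r i : ℕ) : Finset ℕ :=
  A.filter (fun p => 2 ^ (κ * i + r) < p ∧ p ≤ 2 * 2 ^ (κ * i + r))

lemma BB_zero (A : Finset ℕ) (κ r : ℕ) : BB A κ r 0 = ∅ := by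
  unfold BB
  rw [Finset.filter_eq_empty_iff]
  rintro p _ ⟨i, hi, _⟩
  omega

lemma BB_succ (A : Finset ℕ) (κ r K : ℕ) : BB A κ r (K + 1) = BB A κ r K ∪ TT A κ r K := by
  ext p
  unfold BB TT
  rw [mem_union, mem_filter, mem_filter, mem_filter]
  constructor
  · rintro ⟨hA, i, hi, h1⟩
    rcases Nat.lt_succ_iff_lt_or_eq.1 hi with h | h
    · exact Or.inl ⟨hA, i, h, h1⟩
    · subst h
      exact Or.inr ⟨hA, h1⟩
  · rintro (⟨hA, i, hi, h1⟩ | ⟨hA, h1⟩)
    · exact ⟨hA, i, by omega, h1⟩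
    · exact ⟨hA, K, by omega, h1⟩

lemma BB_disj (A : Finset ℕ) {κ : ℕ} (hκ : 1 ≤ κ) (r K : ℕ) : Disjoint (BB A κ r K) (TT A κ r K) := by
  rw [Finset.disjoint_left]
  intro p h1 h2
  unfold BB at h1
  unfold TT at h2
  rw [mem_filter] at h1 h2
  obtain ⟨_, i, hi, h3, h4⟩ := h1
  obtain ⟨_, h5, h6⟩ := h2
  have h7 : κ * i + r + 1 ≤ κ * K + r := by
    have : κ * (i + 1) ≤ κ * K := Nat.mul_le_mul_left _ hi
    rw [mul_add, mul_one] at this
    omega
  have h8 : 2 ^ (κ * i + r + 1) ≤ 2 ^ (κ * K + r) := Nat.pow_le_pow_right (by norm_num) h7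
  rw [pow_succ] at h8
  omega

end Pool.Agent.T9h55.PF
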