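import Pool.Agent.T9h55.PF.Tail

/-! The measure of the set of the `γ` with too few or too many exponents (helper55). -/

set_option autoImplicit false

namespace Pool.Agent.T9h55.PF

open Finset Filter Topology MeasureTheory
open Pool.Agent.H305R2 (roughPart)
open Pool.Agent.N176.GP (XX XX_nonneg sum_cells sum_div)

/-- the number of the exponents in `A` with prime rough part -/
noncomputable def MM (a k : ℕ → ℕ) (A : Finset ℕ) (γ : ℝ) : ℝ := ∑ p ∈ A, XX p (a p + ⌊γ * 2 ^ k p⌋₊)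

lemma MM_nonneg (a k : ℕ → ℕ) (A : Finset ℕ) (γ : ℝ) : 0 ≤ MM a k A γ :=
  Finset.sum_nonneg fun _ _ => XX_nonneg _ _

lemma floor_div (γ : ℝ) {s t : ℕ} (hst : s ≤ t) : ⌊γ * 2 ^ t⌋₊ / 2 ^ (t - s) = ⌊γ * 2 ^ s⌋₊ := by
  rw [← Nat.floor_div_natCast]
  congr 1
  push_cast
  rw [div_eq_iff (by positivity), mul_assoc, ← pow_add]
  congr 2
  omega

lemma HH_eq (a k : ℕ → ℕ) (A : Finset ℕ) (t : ℕ) (hA : ∀ p ∈ A, k p ≤ t) (γ : ℝ) :
    HH a k A t ⌊γ * 2 ^ t⌋₊ = MM a k A γ := by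
  unfold HH MM
  refine Finset.sum_congr rfl fun p hp => ?_
  rw [floor_div γ (hA p hp)]

/-- Chebyshev's inequality -/
lemma cheb (t : ℕ) (Z : ℕ → ℝ) (B ε : ℝ) (hε : 0 < ε)
    (h : ∑ n ∈ range (2 ^ t), (max (Z n) 0) ^ 2 ≤ B * (2 : ℝ) ^ t) :
    volume {γ : ℝ | 0 < γ ∧ γ < 1 ∧ ε < Z ⌊γ * 2 ^ t⌋₊} ≤ ENNReal.ofReal (B / ε ^ 2) := by
  classical
  have h2t : (0 : ℝ) < (2 : ℝ) ^ t := by positivity
  set F := (range (2 ^ t)).filter (fun n => ε < Z n) with hF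
  have hcover : {γ : ℝ | 0 < γ ∧ γ < 1 ∧ ε < Z ⌊γ * 2 ^ t⌋₊} ⊆
      ⋃ n ∈ F, Set.Ico ((n : ℝ) / (2 : ℝ) ^ t) (((n : ℝ) + 1) / (2 : ℝ) ^ t) := by
    rintro γ ⟨h1, h2, h3⟩
    rw [Set.mem_iUnion₂]
    refine ⟨⌊γ * 2 ^ t⌋₊, ?_, ?_, ?_⟩
    · rw [hF, mem_filter, mem_range]
      refine ⟨?_, h3⟩
      rw [Nat.floor_lt (by positivity)]
      push_cast
      nlinarith
    · rw [div_le_iff₀ h2t]
      exact Nat.floor_le (by positivity)
    · rw [lt_div_iff₀ h2t]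
      exact Nat.lt_floor_add_one _
  have hcard : (#F : ℝ) * ε ^ 2 ≤ B * (2 : ℝ) ^ t := by
    refine le_trans ?_ h
    calc (#F : ℝ) * ε ^ 2 = ∑ n ∈ F, ε ^ 2 := by rw [Finset.sum_const, nsmul_eq_mul]
      _ ≤ ∑ n ∈ F, (max (Z n) 0) ^ 2 := by
          refine Finset.sum_le_sum fun n hn => ?_
          rw [hF, mem_filter] at hn
          exact pow_le_pow_left₀ hε.le (hn.2.le.trans (le_max_left _ _)) 2
      _ ≤ _ := Finset.sum_le_sum_of_subset_of_nonneg (filter_subset _ _) fun _ _ _ => sq_nonneg _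
  calc volume _ ≤ volume (⋃ n ∈ F, Set.Ico ((n : ℝ) / (2 : ℝ) ^ t) (((n : ℝ) + 1) / (2 : ℝ) ^ t)) :=
        measure_mono hcover
    _ ≤ ∑ n ∈ F, volume (Set.Ico ((n : ℝ) / (2 : ℝ) ^ t) (((n : ℝ) + 1) / (2 : ℝ) ^ t)) :=
        measure_biUnion_finset_le _ _
    _ = ∑ n ∈ F, ENNReal.ofReal (1 / (2 : ℝ) ^ t) := by
        refine Finset.sum_congr rfl fun n _ => ?_
        rw [Real.volume_Ico]
        congr 1
        ring
    _ = ENNReal.ofReal (#F / (2 : ℝ) ^ t) := by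
        rw [Finset.sum_const, nsmul_eq_mul, ← ENNReal.ofReal_natCast, ← ENNReal.ofReal_mul (Nat.cast_nonneg _)]
        congr 1
        ring
    _ ≤ _ := by
        refine ENNReal.ofReal_le_ofReal ?_
        rw [div_le_div_iff₀ h2t (by positivity)]
        exact hcard

/-- the block of a number -/
lemma cover {κ : ℕ} (hκ : 1 ≤ κ) (A : Finset ℕ) (hA : ∀ p ∈ A, p.Prime) : ∃ K : ℕ,
    A = (range κ).biUnion (fun r => BB A κ r K) := by
  refine ⟨A.sup id + 1, ?_⟩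
  ext p
  rw [mem_biUnion]
  constructor
  · intro hp
    have h2 := (hA p hp).two_le
    have hle : p ≤ A.sup id := Finset.le_sup (f := id) hp
    have h3 : 2 ^ Nat.log 2 (p - 1) ≤ p - 1 := Nat.pow_log_le_self 2 (by omega)
    have h4 : p - 1 < 2 ^ (Nat.log 2 (p - 1) + 1) := Nat.lt_pow_succ_log_self (by norm_num) _
    have h5 : Nat.log 2 (p - 1) < 2 ^ Nat.log 2 (p - 1) := Nat.lt_two_pow_self
    refine ⟨Nat.log 2 (p - 1) % κ, mem_range.2 (Nat.mod_lt _ (by omega)), ?_⟩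
    unfold BB
    rw [mem_filter]
    refine ⟨hp, Nat.log 2 (p - 1) / κ, ?_, ?_⟩
    · have : Nat.log 2 (p - 1) / κ ≤ Nat.log 2 (p - 1) := Nat.div_le_self _ _
      omega
    · rw [Nat.div_add_mod]
      rw [pow_succ] at h4
      omega
  · rintro ⟨r, _, h⟩
    exact (mem_filter.1 h).1

lemma cover_disj {κ : ℕ} (A : Finset ℕ) (K : ℕ) :
    Set.PairwiseDisjoint (range κ : Set ℕ) (fun r => BB A κ r K) := by
  intro r hr r' hr' hne
  rw [Finset.coe_range, Set.mem_Iio] at hr hr'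
  rw [Function.onFun, Finset.disjoint_left]
  intro p h1 h2
  unfold BB at h1 h2
  rw [mem_filter] at h1 h2
  obtain ⟨_, i, _, h3, h4⟩ := h1
  obtain ⟨_, i', _, h5, h6⟩ := h2
  have key : ∀ u v : ℕ, 2 ^ u < p → p ≤ 2 * 2 ^ v → u ≤ v := by
    intro u v hu hv
    have h7 : 2 ^ u < 2 ^ (v + 1) := by
      rw [pow_succ]
      omega
    have := (Nat.pow_lt_pow_iff_right (by norm_num)).1 h7
    omega
  have h7 : κ * i + r = κ * i' + r' := le_antisymm (key _ _ h3 h6) (key _ _ h5 h4)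
  apply hne
  have h8 := congrArg (· % κ) h7
  simp only [Nat.mul_add_mod, Nat.mod_eq_of_lt hr, Nat.mod_eq_of_lt hr'] at h8
  exact h8

theorem tail : ∃ δ₀ : ℝ, 0 < δ₀ ∧ δ₀ ≤ 1 / 64 ∧ ∀ (δ c₁ : ℝ) (c₂ : ℕ), 0 < δ → δ ≤ δ₀ → 0 < c₁ → 1 ≤ c₂ →
    ∃ c C B : ℝ, 0 < c ∧ 0 < C ∧ 0 < B ∧ ∀ (a k : ℕ → ℕ) (N₀ : ℕ), Dat δ a k c₁ c₂ N₀ → ∃ N₁ : ℕ, N₀ ≤ N₁ ∧
    ∀ A : Finset ℕ, (∀ p ∈ A, p.Prime ∧ N₁ < p) → 0 < vv A →
      volume {γ : ℝ | 0 < γ ∧ γ < 1 ∧ (MM a k A γ < c * vv A ∨ C * vv A < MM a k A γ)} ≤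
        ENNReal.ofReal (B / vv A) := by
  classical
  obtain ⟨δ₀, hδ₀, hδ₀1, hcl⟩ := class_bound
  refine ⟨δ₀, hδ₀, hδ₀1, fun δ c₁ c₂ hδ hδ0 hc₁ hc₂ => ?_⟩
  obtain ⟨c, C, hc, hC, hcC, κ, hκ, hPD⟩ := hcl δ c₁ c₂ hδ hδ0 hc₁ hc₂
  have hκ0 : (0 : ℝ) < κ := by exact_mod_cast hκ
  refine ⟨c / 2, 2 * C, κ * (2 * (C / (c / (2 * κ)) ^ 2)), by positivity, by positivity, by positivity,
    fun a k N₀ D => ?_⟩
  obtain ⟨N₁, hN, hP⟩ := hPD a k N₀ D
  refine ⟨N₁, hN, fun A hA hv => ?_⟩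
  obtain ⟨K, hK⟩ := cover hκ A (fun p hp => (hA p hp).1)
  have hdisj := cover_disj (κ := κ) A K
  have hvs : vv A = ∑ r ∈ range κ, vv (BB A κ r K) := by
    conv_lhs => rw [hK]
    unfold vv
    rw [Finset.sum_biUnion hdisj]
  have hMs : ∀ γ, MM a k A γ = ∑ r ∈ range κ, MM a k (BB A κ r K) γ := by
    intro γ
    conv_lhs => rw [hK]
    unfold MM
    rw [Finset.sum_biUnion hdisj]
  have hvle : ∀ r ∈ range κ, vv (BB A κ r K) ≤ vv A := by
    intro r hr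
    rw [hvs]
    exact Finset.single_le_sum (f := fun r => vv (BB A κ r K)) (fun _ _ => vv_nonneg _) hr
  set ε := c / (2 * κ) * vv A with hε
  have hε0 : 0 < ε := by positivity
  set U : ℕ → Set ℝ := fun r => {γ : ℝ | 0 < γ ∧ γ < 1 ∧ ε <
    (fun n => c * vv (BB A κ r K) - HH a k (BB A κ r K) (lv c₂ κ r K) n) ⌊γ * 2 ^ lv c₂ κ r K⌋₊} with hU
  set V : ℕ → Set ℝ := fun r => {γ : ℝ | 0 < γ ∧ γ < 1 ∧ ε <
    (fun n => HH a k (BB A κ r K) (lv c₂ κ r K) n - C * vv (BB A κ r K)) ⌊γ * 2 ^ lv c₂ κ r K⌋₊} with hV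
  have hcov : {γ : ℝ | 0 < γ ∧ γ < 1 ∧ (MM a k A γ < c / 2 * vv A ∨ 2 * C * vv A < MM a k A γ)} ⊆
      ⋃ r ∈ range κ, (U r ∪ V r) := by
    rintro γ ⟨h0, h1, h2⟩
    by_contra hcon
    have h3 : ∀ r ∈ range κ, ¬ (ε < c * vv (BB A κ r K) - MM a k (BB A κ r K) γ) ∧
        ¬ (ε < MM a k (BB A κ r K) γ - C * vv (BB A κ r K)) := by
      intro r hr
      obtain ⟨g1, _, _⟩ := hP A hA r K
      constructor
      · intro h4
        apply hcon
        rw [Set.mem_iUnion₂]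
        refine ⟨r, hr, Or.inl ⟨h0, h1, ?_⟩⟩
        simp only
        rw [HH_eq a k _ _ g1]
        exact h4
      · intro h4
        apply hcon
        rw [Set.mem_iUnion₂]
        refine ⟨r, hr, Or.inr ⟨h0, h1, ?_⟩⟩
        simp only
        rw [HH_eq a k _ _ g1]
        exact h4
    have e0 : (κ : ℝ) * ε = c / 2 * vv A := by
      rw [hε]
      field_simp
    rcases h2 with h2 | h2
    · have h5 : ∑ r ∈ range κ, (c * vv (BB A κ r K) - MM a k (BB A κ r K) γ) ≤ ∑ r ∈ range κ, ε :=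
        Finset.sum_le_sum fun r hr => not_lt.1 (h3 r hr).1
      rw [Finset.sum_sub_distrib, ← Finset.mul_sum, ← hvs, ← hMs, Finset.sum_const, card_range, nsmul_eq_mul, e0] at h5
      linarith
    · have h5 : ∑ r ∈ range κ, (MM a k (BB A κ r K) γ - C * vv (BB A κ r K)) ≤ ∑ r ∈ range κ, ε :=
        Finset.sum_le_sum fun r hr => not_lt.1 (h3 r hr).2
      rw [Finset.sum_sub_distrib, ← Finset.mul_sum, ← hvs, ← hMs, Finset.sum_const, card_range, nsmul_eq_mul, e0] at h5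
      have h6 : c / 2 * vv A ≤ C * vv A := by
        refine mul_le_mul_of_nonneg_right ?_ hv.le
        linarith
      linarith
  have hUV : ∀ r ∈ range κ, volume (U r ∪ V r) ≤
      ENNReal.ofReal (2 * (C * vv A / ε ^ 2)) := by
    intro r hr
    obtain ⟨g1, g2, g3⟩ := hP A hA r K
    have e1 : C * vv (BB A κ r K) / ε ^ 2 ≤ C * vv A / ε ^ 2 := by
      have := hvle r hr
      gcongr
    calc volume (U r ∪ V r) ≤ volume (U r) + volume (V r) := measure_union_le _ _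
      _ ≤ ENNReal.ofReal (C * vv A / ε ^ 2) + ENNReal.ofReal (C * vv A / ε ^ 2) := by
          refine add_le_add ?_ ?_
          · exact (cheb _ _ _ _ hε0 g2).trans (ENNReal.ofReal_le_ofReal e1)
          · exact (cheb _ _ _ _ hε0 g3).trans (ENNReal.ofReal_le_ofReal e1)
      _ = _ := by
          rw [← ENNReal.ofReal_add (by positivity) (by positivity)]
          congr 1
          ring
  calc volume _ ≤ volume (⋃ r ∈ range κ, (U r ∪ V r)) := measure_mono hcov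
    _ ≤ ∑ r ∈ range κ, volume (U r ∪ V r) := measure_biUnion_finset_le _ _
    _ ≤ ∑ r ∈ range κ, ENNReal.ofReal (2 * (C * vv A / ε ^ 2)) := Finset.sum_le_sum hUV
    _ = ENNReal.ofReal (κ * (2 * (C * vv A / ε ^ 2))) := by
        rw [Finset.sum_const, card_range, nsmul_eq_mul, ← ENNReal.ofReal_natCast,
          ← ENNReal.ofReal_mul (Nat.cast_nonneg _)]
    _ = _ := by
        congr 1
        rw [hε]
        field_simp

end Pool.Agent.T9h55.PF
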