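import Pool.Agent.T9h55.PF.It

/-! The measure of the set of the `γ` with too few or too many exponents (helper55). -/

set_option autoImplicit false

namespace Pool.Agent.T9h55.PF

open Finset Filter Topology MeasureTheory
open Pool.Agent.H305R2 (roughPart)
open Pool.Agent.N176.GP (XX XX_nonneg sum_cells sum_div)

/-- the level before the block `i` of the class `r` -/
def lv (c₂ κ r i : ℕ) : ℕ := if i = 0 then 0 else 2 * c₂ * 2 ^ (κ * (i - 1) + r)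

lemma lv_succ (c₂ κ r i : ℕ) : lv c₂ κ r (i + 1) = 2 * c₂ * 2 ^ (κ * i + r) := by
  unfold lv
  rw [if_neg (by omega), Nat.add_sub_cancel]

lemma lv_mono (c₂ κ r i : ℕ) : lv c₂ κ r i ≤ lv c₂ κ r (i + 1) := by
  rw [lv_succ]
  unfold lv
  split_ifs with h
  · exact Nat.zero_le _
  · refine Nat.mul_le_mul_left _ (Nat.pow_le_pow_right (by norm_num) ?_)
    have : κ * (i - 1) ≤ κ * i := Nat.mul_le_mul_left _ (Nat.sub_le _ _)
    omega

lemma lv_mono' (c₂ κ r : ℕ) : Monotone (lv c₂ κ r) := monotone_nat_of_le_succ (lv_mono c₂ κ r)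

lemma class_bound : ∃ δ₀ : ℝ, 0 < δ₀ ∧ δ₀ ≤ 1 / 64 ∧ ∀ (δ c₁ : ℝ) (c₂ : ℕ), 0 < δ → δ ≤ δ₀ → 0 < c₁ → 1 ≤ c₂ →
    ∃ c C : ℝ, 0 < c ∧ 0 < C ∧ c ≤ C ∧ ∃ κ : ℕ, 1 ≤ κ ∧
    ∀ (a k : ℕ → ℕ) (N₀ : ℕ), Dat δ a k c₁ c₂ N₀ → ∃ N₁ : ℕ, N₀ ≤ N₁ ∧
    ∀ A : Finset ℕ, (∀ p ∈ A, p.Prime ∧ N₁ < p) → ∀ r K : ℕ,
      (∀ p ∈ BB A κ r K, k p ≤ lv c₂ κ r K) ∧
      ∑ n ∈ range (2 ^ lv c₂ κ r K), (max (c * vv (BB A κ r K) - HH a k (BB A κ r K) (lv c₂ κ r K) n) 0) ^ 2 ≤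
        C * vv (BB A κ r K) * (2 : ℝ) ^ lv c₂ κ r K ∧
      ∑ n ∈ range (2 ^ lv c₂ κ r K), (max (HH a k (BB A κ r K) (lv c₂ κ r K) n - C * vv (BB A κ r K)) 0) ^ 2 ≤
        C * vv (BB A κ r K) * (2 : ℝ) ^ lv c₂ κ r K := by
  obtain ⟨δ₀, hδ₀, hδ₀1, hbl⟩ := block
  refine ⟨δ₀, hδ₀, hδ₀1, fun δ c₁ c₂ hδ hδ0 hc₁ hc₂ => ?_⟩
  obtain ⟨c, C, hc, hC, hPD⟩ := hbl δ c₁ c₂ hδ hδ0 hc₁ hc₂
  obtain ⟨κ, hκ⟩ : ∃ κ : ℕ, 2 * c₂ / (δ * c₁) ≤ (2 : ℝ) ^ κ := by
    obtain ⟨κ, hκ⟩ := pow_unbounded_of_one_lt (2 * c₂ / (δ * c₁)) (one_lt_two (α := ℝ))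
    exact ⟨κ, hκ.le⟩
  have hκ' : ∀ m : ℕ, ((2 * c₂ * 2 ^ m : ℕ) : ℝ) ≤ δ * c₁ * ((2 ^ (κ + 1 + m) : ℕ) : ℝ) := by
    intro m
    rw [div_le_iff₀ (by positivity)] at hκ
    push_cast
    have e1 : (2 : ℝ) ^ (κ + 1 + m) = 2 * ((2 : ℝ) ^ κ * 2 ^ m) := by rw [pow_add, pow_add]; ring
    rw [e1]
    have e2 : (0 : ℝ) < 2 ^ m := by positivity
    have e3 : (0 : ℝ) < (2 : ℝ) ^ κ := by positivity
    calc 2 * (c₂ : ℝ) * 2 ^ m ≤ (2 : ℝ) ^ κ * (δ * c₁) * 2 ^ m := by gcongr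
      _ ≤ 2 * ((2 : ℝ) ^ κ * (δ * c₁) * 2 ^ m) := by
          have : 0 ≤ (2 : ℝ) ^ κ * (δ * c₁) * 2 ^ m := by positivity
          linarith
      _ = _ := by ring
  set C' : ℝ := max c C + (2 * c ^ 2 * C + 2 * C) + (2 * C + 2 * C ^ 3) with hC'
  have hCC' : C ≤ C' := by
    have : 0 ≤ (2 * c ^ 2 * C + 2 * C) + (2 * C + 2 * C ^ 3) := by positivity
    linarith [le_max_right c C]
  have hcC' : c ≤ C' := by
    have : 0 ≤ (2 * c ^ 2 * C + 2 * C) + (2 * C + 2 * C ^ 3) := by positivity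
    linarith [le_max_left c C]
  have hC'0 : 0 < C' := by linarith
  refine ⟨c, C', hc, hC'0, hcC', κ + 1, by omega, fun a k N₀ D => ?_⟩
  obtain ⟨P, hP⟩ := hPD a k N₀ D
  refine ⟨2 * P + N₀, by omega, fun A hA r K => ?_⟩
  -- the blocks
  have hTT : ∀ i, ∀ p ∈ TT A (κ + 1) r i, p.Prime ∧ 2 ^ ((κ + 1) * i + r) < p ∧ p ≤ 2 * 2 ^ ((κ + 1) * i + r) := by
    intro i p hp
    unfold TT at hp
    rw [mem_filter] at hp
    exact ⟨(hA p hp.1).1, hp.2⟩
  have hblk : ∀ i, ∀ j < 2 ^ lv c₂ (κ + 1) r i,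
      let d := lv c₂ (κ + 1) r (i + 1) - lv c₂ (κ + 1) r i
      c * vv (TT A (κ + 1) r i) * (2 : ℝ) ^ d ≤
        ∑ n ∈ Ico (j * 2 ^ d) ((j + 1) * 2 ^ d), HH a k (TT A (κ + 1) r i) (lv c₂ (κ + 1) r (i + 1)) n ∧
      ∑ n ∈ Ico (j * 2 ^ d) ((j + 1) * 2 ^ d), HH a k (TT A (κ + 1) r i) (lv c₂ (κ + 1) r (i + 1)) n ≤
        C * vv (TT A (κ + 1) r i) * (2 : ℝ) ^ d ∧
      ∑ n ∈ Ico (j * 2 ^ d) ((j + 1) * 2 ^ d), HH a k (TT A (κ + 1) r i) (lv c₂ (κ + 1) r (i + 1)) n ^ 2 ≤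
        C * vv (TT A (κ + 1) r i) * (2 : ℝ) ^ d ∧ vv (TT A (κ + 1) r i) ≤ C := by
    intro i j hj d
    rcases Finset.eq_empty_or_nonempty (TT A (κ + 1) r i) with h | ⟨p, hp⟩
    · rw [h]
      simp [vv, HH, hC.le]
    · have h1 := hTT i p hp
      have h2 : 2 * P + N₀ < p := by
        unfold TT at hp
        exact (hA p (mem_filter.1 hp).1).2
      refine hP (2 ^ ((κ + 1) * i + r)) (by omega) (TT A (κ + 1) r i) (hTT i) (lv c₂ (κ + 1) r i) ?_
        (lv c₂ (κ + 1) r (i + 1)) ?_ j hj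
      · unfold lv
        split_ifs with h0
        · have : 0 ≤ δ * c₁ * ((2 ^ ((κ + 1) * i + r) : ℕ) : ℝ) := by positivity
          simpa using this
        · have h3 := hκ' ((κ + 1) * (i - 1) + r)
          have h4 : κ + 1 + ((κ + 1) * (i - 1) + r) = (κ + 1) * i + r := by
            obtain ⟨l, rfl⟩ := Nat.exists_eq_succ_of_ne_zero h0
            rw [Nat.succ_sub_one, Nat.mul_succ]
            omega
          rw [h4] at h3
          exact h3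
      · rw [lv_succ]
  have hcell : ∀ i, ∀ j : ℕ, (#(Ico (j * 2 ^ (lv c₂ (κ + 1) r (i + 1) - lv c₂ (κ + 1) r i))
      ((j + 1) * 2 ^ (lv c₂ (κ + 1) r (i + 1) - lv c₂ (κ + 1) r i))) : ℝ) =
      (2 : ℝ) ^ (lv c₂ (κ + 1) r (i + 1) - lv c₂ (κ + 1) r i) := by
    intro i j
    rw [Nat.card_Ico, add_mul, one_mul, Nat.add_sub_cancel_left]
    push_cast
    rfl
  have hlev : ∀ i, ∀ p ∈ BB A (κ + 1) r i, k p ≤ lv c₂ (κ + 1) r i := by
    intro i p hp
    unfold BB at hp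
    rw [mem_filter] at hp
    obtain ⟨hpA, l, hl, h1, h2⟩ := hp
    have h3 := hA p hpA
    calc k p ≤ c₂ * p := D.hi p (by omega) h3.1
      _ ≤ c₂ * (2 * 2 ^ ((κ + 1) * l + r)) := Nat.mul_le_mul_left _ h2
      _ = lv c₂ (κ + 1) r (l + 1) := by rw [lv_succ]; ring
      _ ≤ lv c₂ (κ + 1) r i := lv_mono' _ _ _ hl
  have hrecH : ∀ i n, HH a k (BB A (κ + 1) r (i + 1)) (lv c₂ (κ + 1) r (i + 1)) n =
      HH a k (BB A (κ + 1) r i) (lv c₂ (κ + 1) r i)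
        (n / 2 ^ (lv c₂ (κ + 1) r (i + 1) - lv c₂ (κ + 1) r i)) +
      HH a k (TT A (κ + 1) r i) (lv c₂ (κ + 1) r (i + 1)) n := by
    intro i n
    rw [BB_succ, HH_union _ _ _ _ (BB_disj A (by omega) r i), HH_div _ _ _ _ _ _ (lv_mono _ _ _ _) (hlev i)]
  have hrecv : ∀ i, vv (BB A (κ + 1) r (i + 1)) = vv (BB A (κ + 1) r i) + vv (TT A (κ + 1) r i) := by
    intro i
    rw [BB_succ, vv_union _ _ (BB_disj A (by omega) r i)]
  have hvsum : ∀ K, vv (BB A (κ + 1) r K) = ∑ i ∈ range K, vv (TT A (κ + 1) r i) := by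
    intro K
    induction K with
    | zero => rw [BB_zero]; simp [vv]
    | succ K ih => rw [hrecv, ih, Finset.sum_range_succ]
  refine ⟨hlev K, ?_, ?_⟩
  · have h := iter (lv c₂ (κ + 1) r) (lv_mono _ _ _)
      (fun i n => c * vv (BB A (κ + 1) r i) - HH a k (BB A (κ + 1) r i) (lv c₂ (κ + 1) r i) n)
      (fun i n => c * vv (TT A (κ + 1) r i) - HH a k (TT A (κ + 1) r i) (lv c₂ (κ + 1) r (i + 1)) n)
      (fun i => (2 * c ^ 2 * C + 2 * C) * vv (TT A (κ + 1) r i))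
      (by
        intro n
        simp only [BB_zero]
        simp [vv, HH])
      (by
        intro i n
        rw [hrecH, hrecv]
        ring)
      (by
        intro i j hj
        have h1 := (hblk i j hj).1
        rw [Finset.sum_sub_distrib, Finset.sum_const, nsmul_eq_mul, hcell]
        linarith)
      (by
        intro i j hj
        obtain ⟨_, _, h3, h4⟩ := hblk i j hj
        have hv0 := vv_nonneg (TT A (κ + 1) r i)
        obtain ⟨d, hd⟩ : ∃ d, d = lv c₂ (κ + 1) r (i + 1) - lv c₂ (κ + 1) r i := ⟨_, rfl⟩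
        have hce := hcell i j
        rw [← hd] at h3 hce ⊢
        have hN : (0 : ℝ) < (2 : ℝ) ^ d := by positivity
        calc ∑ n ∈ Ico (j * 2 ^ d) ((j + 1) * 2 ^ d), (c * vv (TT A (κ + 1) r i) -
              HH a k (TT A (κ + 1) r i) (lv c₂ (κ + 1) r (i + 1)) n) ^ 2 ≤
            ∑ n ∈ Ico (j * 2 ^ d) ((j + 1) * 2 ^ d), (2 * (c * vv (TT A (κ + 1) r i)) ^ 2 +
              2 * HH a k (TT A (κ + 1) r i) (lv c₂ (κ + 1) r (i + 1)) n ^ 2) := by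
              refine Finset.sum_le_sum fun n _ => ?_
              nlinarith [sq_nonneg (c * vv (TT A (κ + 1) r i) +
                HH a k (TT A (κ + 1) r i) (lv c₂ (κ + 1) r (i + 1)) n)]
          _ = 2 * (c * vv (TT A (κ + 1) r i)) ^ 2 * (2 : ℝ) ^ d +
              2 * ∑ n ∈ Ico (j * 2 ^ d) ((j + 1) * 2 ^ d), HH a k (TT A (κ + 1) r i)
                (lv c₂ (κ + 1) r (i + 1)) n ^ 2 := by
              rw [Finset.sum_add_distrib, Finset.sum_const, nsmul_eq_mul, hce, ← Finset.mul_sum]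
              ring
          _ ≤ 2 * (c ^ 2 * (C * vv (TT A (κ + 1) r i))) * (2 : ℝ) ^ d +
              2 * (C * vv (TT A (κ + 1) r i) * (2 : ℝ) ^ d) := by
              have e1 : (c * vv (TT A (κ + 1) r i)) ^ 2 ≤ c ^ 2 * (C * vv (TT A (κ + 1) r i)) := by
                rw [mul_pow, sq (vv _)]
                gcongr
              gcongr
          _ = _ := by ring) K
    refine h.trans ?_
    refine mul_le_mul_of_nonneg_right ?_ (by positivity)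
    rw [← Finset.mul_sum, ← hvsum]
    refine mul_le_mul_of_nonneg_right ?_ (vv_nonneg _)
    have : 0 ≤ 2 * C + 2 * C ^ 3 := by positivity
    linarith [le_max_left c C]
  · have h := iter (lv c₂ (κ + 1) r) (lv_mono _ _ _)
      (fun i n => HH a k (BB A (κ + 1) r i) (lv c₂ (κ + 1) r i) n - C * vv (BB A (κ + 1) r i))
      (fun i n => HH a k (TT A (κ + 1) r i) (lv c₂ (κ + 1) r (i + 1)) n - C * vv (TT A (κ + 1) r i))
      (fun i => (2 * C + 2 * C ^ 3) * vv (TT A (κ + 1) r i))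
      (by
        intro n
        simp only [BB_zero]
        simp [vv, HH])
      (by
        intro i n
        rw [hrecH, hrecv]
        ring)
      (by
        intro i j hj
        have h1 := (hblk i j hj).2.1
        rw [Finset.sum_sub_distrib, Finset.sum_const, nsmul_eq_mul, hcell]
        linarith)
      (by
        intro i j hj
        obtain ⟨_, _, h3, h4⟩ := hblk i j hj
        have hv0 := vv_nonneg (TT A (κ + 1) r i)
        obtain ⟨d, hd⟩ : ∃ d, d = lv c₂ (κ + 1) r (i + 1) - lv c₂ (κ + 1) r i := ⟨_, rfl⟩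
        have hce := hcell i j
        rw [← hd] at h3 hce ⊢
        have hN : (0 : ℝ) < (2 : ℝ) ^ d := by positivity
        calc ∑ n ∈ Ico (j * 2 ^ d) ((j + 1) * 2 ^ d), (HH a k (TT A (κ + 1) r i) (lv c₂ (κ + 1) r (i + 1)) n -
              C * vv (TT A (κ + 1) r i)) ^ 2 ≤
            ∑ n ∈ Ico (j * 2 ^ d) ((j + 1) * 2 ^ d), (2 * (C * vv (TT A (κ + 1) r i)) ^ 2 +
              2 * HH a k (TT A (κ + 1) r i) (lv c₂ (κ + 1) r (i + 1)) n ^ 2) := by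
              refine Finset.sum_le_sum fun n _ => ?_
              nlinarith [sq_nonneg (C * vv (TT A (κ + 1) r i) +
                HH a k (TT A (κ + 1) r i) (lv c₂ (κ + 1) r (i + 1)) n)]
          _ = 2 * (C * vv (TT A (κ + 1) r i)) ^ 2 * (2 : ℝ) ^ d +
              2 * ∑ n ∈ Ico (j * 2 ^ d) ((j + 1) * 2 ^ d), HH a k (TT A (κ + 1) r i)
                (lv c₂ (κ + 1) r (i + 1)) n ^ 2 := by
              rw [Finset.sum_add_distrib, Finset.sum_const, nsmul_eq_mul, hce, ← Finset.mul_sum]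
              ring
          _ ≤ 2 * (C ^ 2 * (C * vv (TT A (κ + 1) r i))) * (2 : ℝ) ^ d +
              2 * (C * vv (TT A (κ + 1) r i) * (2 : ℝ) ^ d) := by
              have e1 : (C * vv (TT A (κ + 1) r i)) ^ 2 ≤ C ^ 2 * (C * vv (TT A (κ + 1) r i)) := by
                rw [mul_pow, sq (vv _)]
                gcongr
              gcongr
          _ = _ := by ring) K
    have hmono : ∀ n, (max (HH a k (BB A (κ + 1) r K) (lv c₂ (κ + 1) r K) n - C' * vv (BB A (κ + 1) r K)) 0) ^ 2 ≤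
        (max (HH a k (BB A (κ + 1) r K) (lv c₂ (κ + 1) r K) n - C * vv (BB A (κ + 1) r K)) 0) ^ 2 := by
      intro n
      have e1 : HH a k (BB A (κ + 1) r K) (lv c₂ (κ + 1) r K) n - C' * vv (BB A (κ + 1) r K) ≤
          HH a k (BB A (κ + 1) r K) (lv c₂ (κ + 1) r K) n - C * vv (BB A (κ + 1) r K) := by
        have := mul_le_mul_of_nonneg_right hCC' (vv_nonneg (BB A (κ + 1) r K))
        linarith
      exact pow_le_pow_left₀ (le_max_right _ _) (max_le_max e1 le_rfl) 2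
    refine ((Finset.sum_le_sum fun n _ => hmono n).trans h).trans ?_
    refine mul_le_mul_of_nonneg_right ?_ (by positivity)
    rw [← Finset.mul_sum, ← hvsum]
    refine mul_le_mul_of_nonneg_right ?_ (vv_nonneg _)
    have : 0 ≤ 2 * c ^ 2 * C + 2 * C := by positivity
    linarith [le_max_left c C]

end Pool.Agent.T9h55.PF
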